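import Mathlib

set_option autoImplicit false

namespace Pool.Agent.H357R3.LR

open Filter Topology Matrix

variable {n : ℕ}

/-- the `k`-th root of the infinite word `s` -/
noncomputable def beta (σ : Fin n → Matrix (Fin n) (Fin n) ℝ) (s : ℕ → Fin n) (k : ℕ) :
    Fin n → ℝ :=
  Matrix.mulVec (List.ofFn fun j : Fin k => σ (s j)).prod (Pi.single (s k) (1 : ℝ) : Fin n → ℝ)

/-- shift -/
def sh (s : ℕ → Fin n) (j : ℕ) : ℕ → Fin n := fun l => s (j + l)

theorem beta_zero (σ : Fin n → Matrix (Fin n) (Fin n) ℝ) (s : ℕ → Fin n) :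
    beta σ s 0 = Pi.single (s 0) 1 := by
  unfold beta
  rw [List.ofFn_zero, List.prod_nil, Matrix.one_mulVec]

theorem beta_succ (σ : Fin n → Matrix (Fin n) (Fin n) ℝ) (s : ℕ → Fin n) (k : ℕ) :
    beta σ s (k + 1) = Matrix.mulVec (σ (s 0)) (beta σ (fun l => s (l + 1)) k) := by
  simp only [beta, List.ofFn_succ, List.prod_cons, Matrix.mulVec_mulVec]
  rfl

/-- successive pull backs of a vector -/
noncomputable def pull (σ : Fin n → Matrix (Fin n) (Fin n) ℝ) (s : ℕ → Fin n) (x : Fin n → ℝ) :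
    ℕ → Fin n → ℝ
  | 0 => x
  | k + 1 => Matrix.mulVec (σ (s k)) (pull σ s x k)

theorem pull_succ (σ : Fin n → Matrix (Fin n) (Fin n) ℝ) (s : ℕ → Fin n) (x : Fin n → ℝ) (k : ℕ) :
    pull σ s x (k + 1) = Matrix.mulVec (σ (s k)) (pull σ s x k) := rfl

theorem pull_succ' (σ : Fin n → Matrix (Fin n) (Fin n) ℝ) (s : ℕ → Fin n) (x : Fin n → ℝ) (k : ℕ) :
    pull σ s x (k + 1) = pull σ (fun l => s (l + 1)) (Matrix.mulVec (σ (s 0)) x) k := by
  induction k with
  | zero => rfl
  | succ k ih => rw [pull_succ, ih]; rfl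

theorem pull_smul (σ : Fin n → Matrix (Fin n) (Fin n) ℝ) (s : ℕ → Fin n) (c : ℝ)
    (x : Fin n → ℝ) (k : ℕ) : pull σ s (c • x) k = c • pull σ s x k := by
  induction k with
  | zero => rfl
  | succ k ih => rw [pull_succ, ih, Matrix.mulVec_smul]; rfl

theorem pull_add (σ : Fin n → Matrix (Fin n) (Fin n) ℝ) (s : ℕ → Fin n)
    (x y : Fin n → ℝ) (k : ℕ) : pull σ s (x + y) k = pull σ s x k + pull σ s y k := by
  induction k with
  | zero => rfl
  | succ k ih => rw [pull_succ, ih, Matrix.mulVec_add]; rfl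

theorem pull_cont (σ : Fin n → Matrix (Fin n) (Fin n) ℝ) (s : ℕ → Fin n) (k : ℕ) :
    Continuous fun x => pull σ s x k := by
  induction k with
  | zero => exact continuous_id
  | succ k ih => exact Continuous.matrix_mulVec continuous_const ih

/-- involutivity -/
def Inv (σ : Fin n → Matrix (Fin n) (Fin n) ℝ) : Prop :=
  ∀ i v, Matrix.mulVec (σ i) (Matrix.mulVec (σ i) v) = v

theorem pull_back {σ : Fin n → Matrix (Fin n) (Fin n) ℝ} (hσ : Inv σ) (s : ℕ → Fin n)
    (x : Fin n → ℝ) (k : ℕ) :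
    pull σ s x k = Matrix.mulVec (σ (s k)) (pull σ s x (k + 1)) := by
  rw [pull_succ, hσ]

theorem pull_inj {σ : Fin n → Matrix (Fin n) (Fin n) ℝ} (hσ : Inv σ) (s : ℕ → Fin n)
    (x : Fin n → ℝ) (k : ℕ) (h : pull σ s x k = 0) : x = 0 := by
  induction k with
  | zero => exact h
  | succ k ih =>
    apply ih
    rw [pull_back hσ, h, Matrix.mulVec_zero]

theorem pull_beta {σ : Fin n → Matrix (Fin n) (Fin n) ℝ} (hσ : Inv σ) (k m : ℕ) :
    ∀ s : ℕ → Fin n, pull σ s (beta σ s (k + m)) k = beta σ (sh s k) m := by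
  induction k with
  | zero =>
    intro s
    rw [Nat.zero_add]
    show beta σ s m = _
    congr 1
    funext l
    show s l = s (0 + l)
    rw [Nat.zero_add]
  | succ k ih =>
    intro s
    rw [pull_succ', show k + 1 + m = (k + m) + 1 by omega, beta_succ, hσ, ih]
    congr 1
    funext l
    show s (k + l + 1) = s (k + 1 + l)
    congr 1; omega

/-- accumulation points of a sequence lie in every closed set containing almost all terms -/
theorem accPt_mem_closed {f : ℕ → Fin n → ℝ} {x : Fin n → ℝ}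
    (hx : AccPt x (𝓟 (Set.range f))) {C : Set (Fin n → ℝ)} (hC : IsClosed C)
    (hf : {k | f k ∉ C}.Finite) : x ∈ C := by
  by_contra hxC
  have hfin : ((f '' {k | f k ∉ C}) \ {x}).Finite := (hf.image f).subset Set.sdiff_subset
  have hU : Cᶜ ∩ ((f '' {k | f k ∉ C}) \ {x})ᶜ ∈ 𝓝 x := by
    refine Filter.inter_mem (hC.isOpen_compl.mem_nhds hxC) (hfin.isClosed.isOpen_compl.mem_nhds ?_)
    intro h
    exact h.2 rfl
  obtain ⟨y, hy, hyx⟩ := (accPt_iff_nhds.1 hx) _ hU
  obtain ⟨⟨hyC, hyF⟩, ⟨k, rfl⟩⟩ := hy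
  exact hyF ⟨⟨k, hyC, rfl⟩, hyx⟩

/-- general frame: uniqueness from closed cones -/
theorem frame (f : ℕ → Fin n → ℝ) (h0 : ∀ k i, 0 ≤ f k i) (h1 : ∀ k, ∑ i, f k i = 1)
    (hinj : Function.Injective f)
    (huniq : ∀ x y, AccPt x (𝓟 (Set.range f)) → AccPt y (𝓟 (Set.range f)) → x = y) :
    ∃! x : Fin n → ℝ, AccPt x (𝓟 (Set.range f)) := by
  have hcomp : IsCompact (stdSimplex ℝ (Fin n)) := isCompact_stdSimplex ℝ (Fin n)
  have hinf : (Set.range f).Infinite := Set.infinite_range_of_injective hinj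
  have hsub : Set.range f ⊆ stdSimplex ℝ (Fin n) := by
    rintro _ ⟨k, rfl⟩
    exact ⟨h0 k, h1 k⟩
  obtain ⟨x, -, hx⟩ := hinf.exists_accPt_of_subset_isCompact hcomp hsub
  exact ⟨x, hx, fun y hy => huniq y x hy hx⟩

/-- the normalised roots -/
noncomputable def nb (σ : Fin n → Matrix (Fin n) (Fin n) ℝ) (s : ℕ → Fin n) (k : ℕ) :
    Fin n → ℝ := (∑ i, beta σ s k i)⁻¹ • beta σ s k

/-- data of admissible words -/
structure Adm (σ : Fin n → Matrix (Fin n) (Fin n) ℝ) (R : (ℕ → Fin n) → Prop) : Prop where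
  inv : Inv σ
  neg : ∀ i, Matrix.mulVec (σ i) (Pi.single i 1) = - Pi.single i 1
  shift : ∀ s, R s → R (fun l => s (l + 1))
  pos : ∀ s, R s → ∀ k i, 0 ≤ beta σ s k i

variable {σ : Fin n → Matrix (Fin n) (Fin n) ℝ} {R : (ℕ → Fin n) → Prop}

theorem Adm.ne_zero (h : Adm σ R) (k : ℕ) : ∀ s : ℕ → Fin n, beta σ s k ≠ 0 := by
  induction k with
  | zero =>
    intro s hs
    rw [beta_zero] at hs
    have := congrFun hs (s 0)
    simp at this
  | succ k ih =>
    intro s hs
    rw [beta_succ] at hs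
    apply ih (fun l => s (l + 1))
    rw [← h.inv (s 0) (beta σ _ k), hs, Matrix.mulVec_zero]

theorem Adm.sum_pos (h : Adm σ R) (s : ℕ → Fin n) (hs : R s) (k : ℕ) :
    0 < ∑ i, beta σ s k i := by
  apply lt_of_le_of_ne (Finset.sum_nonneg fun i _ => h.pos s hs k i)
  intro h0
  apply h.ne_zero k s
  funext i
  exact (Finset.sum_eq_zero_iff_of_nonneg (fun i _ => h.pos s hs k i)).1 h0.symm i (Finset.mem_univ _)

theorem Adm.ne_smul (h : Adm σ R) (j m : ℕ) : ∀ s : ℕ → Fin n, R s → ∀ c : ℝ, 0 < c →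
    beta σ s j ≠ c • beta σ s (j + m + 1) := by
  induction j with
  | zero =>
    intro s hs c hc heq
    rw [Nat.zero_add, beta_zero, beta_succ] at heq
    have h1 := congrArg (Matrix.mulVec (σ (s 0))) heq
    rw [h.neg, Matrix.mulVec_smul, h.inv] at h1
    have h2 := congrFun h1 (s 0)
    have h3 := h.pos _ (h.shift s hs) m (s 0)
    simp only [Pi.neg_apply, Pi.single_eq_same, Pi.smul_apply, smul_eq_mul] at h2
    have h4 := mul_nonneg hc.le h3
    linarith
  | succ j ih =>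
    intro s hs c hc heq
    rw [beta_succ, show j + 1 + m + 1 = (j + m + 1) + 1 by omega, beta_succ] at heq
    have h1 := congrArg (Matrix.mulVec (σ (s 0))) heq
    rw [Matrix.mulVec_smul, h.inv, h.inv] at h1
    exact ih _ (h.shift s hs) c hc h1

theorem Adm.nb_inj (h : Adm σ R) (s : ℕ → Fin n) (hs : R s) : Function.Injective (nb σ s) := by
  have key : ∀ j k, j < k → nb σ s j ≠ nb σ s k := by
    intro j k hjk heq
    obtain ⟨m, rfl⟩ : ∃ m, k = j + m + 1 := ⟨k - j - 1, by omega⟩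
    have hj := h.sum_pos s hs j
    have hk := h.sum_pos s hs (j + m + 1)
    apply h.ne_smul j m s hs ((∑ i, beta σ s j i) * (∑ i, beta σ s (j + m + 1) i)⁻¹)
      (by positivity)
    unfold nb at heq
    rw [mul_smul, ← heq, smul_smul, mul_inv_cancel₀ hj.ne', one_smul]
  intro j k hjk
  rcases lt_trichotomy j k with h1 | h1 | h1
  · exact absurd hjk (key j k h1)
  · exact h1
  · exact absurd hjk.symm (key k j h1)

/-- pulling closed scale-invariant conditions to accumulation points -/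
theorem Adm.pull_acc (h : Adm σ R) (s : ℕ → Fin n) (hs : R s) {x : Fin n → ℝ}
    (hx : AccPt x (𝓟 (Set.range (nb σ s)))) (k : ℕ) (C : Set (Fin n → ℝ)) (hC : IsClosed C)
    (hsc : ∀ v ∈ C, ∀ c : ℝ, 0 < c → c • v ∈ C)
    (hf : {m | beta σ (sh s k) m ∉ C}.Finite) : pull σ s x k ∈ C := by
  have h1 : IsClosed {y | pull σ s y k ∈ C} := hC.preimage (pull_cont σ s k)
  refine accPt_mem_closed hx h1 ?_
  have h2 : {m | nb σ s m ∉ {y | pull σ s y k ∈ C}} ⊆
      Set.Iio k ∪ (fun m => k + m) '' {m | beta σ (sh s k) m ∉ C} := by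
    intro m hm
    by_cases hmk : m < k
    · exact Or.inl hmk
    · right
      obtain ⟨l, rfl⟩ : ∃ l, m = k + l := ⟨m - k, by omega⟩
      refine ⟨l, ?_, rfl⟩
      intro hl
      apply hm
      show pull σ s (nb σ s (k + l)) k ∈ C
      unfold nb
      rw [pull_smul, pull_beta h.inv]
      exact hsc _ hl _ (inv_pos.2 (h.sum_pos s hs _))
  exact ((Set.finite_Iio k).union (hf.image _)).subset h2

theorem Adm.sum_one (h : Adm σ R) (s : ℕ → Fin n) (hs : R s) (k : ℕ) :
    ∑ i, nb σ s k i = 1 := by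
  have hk := h.sum_pos s hs k
  simp only [nb, Pi.smul_apply, smul_eq_mul]
  rw [← Finset.mul_sum, inv_mul_cancel₀ hk.ne']

theorem Adm.acc_sum (h : Adm σ R) (s : ℕ → Fin n) (hs : R s) {x : Fin n → ℝ}
    (hx : AccPt x (𝓟 (Set.range (nb σ s)))) : ∑ i, x i = 1 := by
  have hc : IsClosed {y : Fin n → ℝ | ∑ i, y i = 1} :=
    isClosed_eq (by fun_prop) continuous_const
  refine accPt_mem_closed hx hc ?_
  have : {k | nb σ s k ∉ {y : Fin n → ℝ | ∑ i, y i = 1}} = ∅ := by
    ext k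
    simp only [Set.mem_empty_iff_false, iff_false]
    intro hk
    exact hk (h.sum_one s hs k)
  rw [this]
  exact Set.finite_empty

theorem Adm.final (h : Adm σ R) (s : ℕ → Fin n) (hs : R s)
    (hprop : ∀ x y, AccPt x (𝓟 (Set.range (nb σ s))) → AccPt y (𝓟 (Set.range (nb σ s))) →
      ∃ a b : ℝ, (a ≠ 0 ∨ b ≠ 0) ∧ a • x = b • y) :
    ∃! x : Fin n → ℝ, AccPt x (𝓟 (Set.range (nb σ s))) := by
  refine frame _ (fun k i => ?_) (h.sum_one s hs) (h.nb_inj s hs) ?_
  · have hk := h.sum_pos s hs k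
    have := h.pos s hs k i
    simp only [nb, Pi.smul_apply, smul_eq_mul]
    positivity
  · intro x y hx hy
    obtain ⟨a, b, hab, heq⟩ := hprop x y hx hy
    have h1 := h.acc_sum s hs hx
    have h2 := h.acc_sum s hs hy
    have h3 : a = b := by
      have h4 : ∑ i, (a • x) i = ∑ i, (b • y) i := by rw [heq]
      simp only [Pi.smul_apply, smul_eq_mul, ← Finset.mul_sum, h1, h2, mul_one] at h4
      exact h4
    subst h3
    have ha : a ≠ 0 := by
      rcases hab with h | h <;> exact h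
    exact smul_right_injective _ ha heq

end Pool.Agent.H357R3.LR
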