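import Pool.Agent.H357R3.LR.Seq

set_option autoImplicit false

namespace Pool.Agent.H357R3.LR

open Matrix

/-- transported test vectors -/
noncomputable def tv (R : ℕ → Matrix (Fin 2) (Fin 2) ℝ) (j : Fin 2) : ℕ → Fin 2 → ℝ
  | 0 => Pi.single j 1
  | k + 1 => Matrix.mulVec (R k)ᵀ (tv R j k)

theorem tv_nonneg (R : ℕ → Matrix (Fin 2) (Fin 2) ℝ) (hR : ∀ k i j, 0 ≤ R k i j) (j : Fin 2)
    (k : ℕ) : ∀ i, 0 ≤ tv R j k i := by
  induction k with
  | zero =>
    intro i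
    show 0 ≤ (Pi.single j 1 : Fin 2 → ℝ) i
    rw [Pi.single_apply]
    split_ifs <;> norm_num
  | succ k ih =>
    intro i
    show 0 ≤ Matrix.mulVec (R k)ᵀ (tv R j k) i
    simp only [Matrix.mulVec, dotProduct, Matrix.transpose_apply]
    exact Finset.sum_nonneg fun a _ => mul_nonneg (hR _ _ _) (ih a)

/-- the conditions on a sequence of matrices -/
structure Good (P : ℕ → Matrix (Fin 2) (Fin 2) ℝ) (b : ℕ → ℝ) (ε β : ℝ) : Prop where
  nonneg : ∀ k i j, 0 ≤ P k i j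
  col : ∀ k j, 1 ≤ P k 0 j + P k 1 j
  col' : ∀ k, ∃ j, 1 + ε ≤ P k 0 j + P k 1 j
  det : ∀ k, |(P k).det| * b k = b (k + 1)

theorem side (D E P R : ℕ → Matrix (Fin 2) (Fin 2) ℝ) (b : ℕ → ℝ) (ε β : ℝ) (hε : 0 < ε)
    (hb : ∀ k, 0 < b k ∧ b k ≤ β) (hD : ∀ k i j, 0 ≤ D k i j) (hE : ∀ k i j, 0 ≤ E k i j)
    (hP : Good P b ε β) (hR : ∀ k i j, 0 ≤ R k i j)
    (hDs : ∀ k, D k = P k * D (k + 1) * (R k)ᵀ) (hEs : ∀ k, E k = P k * E (k + 1) * (R k)ᵀ)
    (j l : Fin 2) : D 0 0 j * E 0 1 l = D 0 1 j * E 0 0 l := by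
  have gen : ∀ (F : ℕ → Matrix (Fin 2) (Fin 2) ℝ), (∀ k i j, 0 ≤ F k i j) → ∀ j k i,
      0 ≤ Matrix.mulVec (F k) (tv R j k) i := by
    intro F hF j k i
    simp only [Matrix.mulVec, dotProduct]
    exact Finset.sum_nonneg fun a _ => mul_nonneg (hF _ _ _) (tv_nonneg R hR j k a)
  have gen2 : ∀ (F : ℕ → Matrix (Fin 2) (Fin 2) ℝ), (∀ k, F k = P k * F (k + 1) * (R k)ᵀ) →
      ∀ j k, Matrix.mulVec (F k) (tv R j k) =
        Matrix.mulVec (P k) (Matrix.mulVec (F (k + 1)) (tv R j (k + 1))) := by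
    intro F hF j k
    show _ = Matrix.mulVec (P k) (Matrix.mulVec (F (k + 1)) (Matrix.mulVec (R k)ᵀ (tv R j k)))
    rw [Matrix.mulVec_mulVec, Matrix.mulVec_mulVec, ← hF k]
  have h := planar P (fun k => Matrix.mulVec (D k) (tv R j k))
    (fun k => Matrix.mulVec (E k) (tv R l k)) b ε β hε
    (fun k i => gen D hD j k i) (fun k i => gen E hE l k i) (fun k => gen2 D hDs j k)
    (fun k => gen2 E hEs l k) hP.col hP.col' hb hP.det
  have ev : ∀ (F : Matrix (Fin 2) (Fin 2) ℝ) (j i : Fin 2),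
      Matrix.mulVec F (tv R j 0) i = F i j := by
    intro F j i
    show Matrix.mulVec F (Pi.single j 1 : Fin 2 → ℝ) i = F i j
    simp
  simp only [ev] at h
  exact h

theorem twoD (X Y M N : ℕ → Matrix (Fin 2) (Fin 2) ℝ) (b : ℕ → ℝ) (ε β : ℝ) (hε : 0 < ε)
    (hb : ∀ k, 0 < b k ∧ b k ≤ β) (hX : ∀ k i j, 0 ≤ X k i j) (hY : ∀ k i j, 0 ≤ Y k i j)
    (hM : Good M b ε β) (hN : Good N b ε β)
    (hXs : ∀ k, X k = M k * (X (k + 1))ᵀ * (N k)ᵀ)
    (hYs : ∀ k, Y k = M k * (Y (k + 1))ᵀ * (N k)ᵀ) (i j k l : Fin 2) :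
    X 0 i j * Y 0 k l = X 0 k l * Y 0 i j := by
  classical
  set P : ℕ → Matrix (Fin 2) (Fin 2) ℝ := fun k => if Even k then M k else N k with hPdef
  set R : ℕ → Matrix (Fin 2) (Fin 2) ℝ := fun k => if Even k then N k else M k with hRdef
  have gP : Good P b ε β := by
    refine ⟨?_, ?_, ?_, ?_⟩ <;> intro k <;> simp only [hPdef] <;> by_cases h : Even k
    · rw [if_pos h]; exact hM.nonneg k
    · rw [if_neg h]; exact hN.nonneg k
    · rw [if_pos h]; exact hM.col k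
    · rw [if_neg h]; exact hN.col k
    · rw [if_pos h]; exact hM.col' k
    · rw [if_neg h]; exact hN.col' k
    · rw [if_pos h]; exact hM.det k
    · rw [if_neg h]; exact hN.det k
  have gR : Good R b ε β := by
    refine ⟨?_, ?_, ?_, ?_⟩ <;> intro k <;> simp only [hRdef] <;> by_cases h : Even k
    · rw [if_pos h]; exact hN.nonneg k
    · rw [if_neg h]; exact hM.nonneg k
    · rw [if_pos h]; exact hN.col k
    · rw [if_neg h]; exact hM.col k
    · rw [if_pos h]; exact hN.col' k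
    · rw [if_neg h]; exact hM.col' k
    · rw [if_pos h]; exact hN.det k
    · rw [if_neg h]; exact hM.det k
  let Dg : (ℕ → Matrix (Fin 2) (Fin 2) ℝ) → ℕ → Matrix (Fin 2) (Fin 2) ℝ :=
    fun Z k => if Even k then Z k else (Z k)ᵀ
  have hDg : ∀ Z : ℕ → Matrix (Fin 2) (Fin 2) ℝ, (∀ k, Z k = M k * (Z (k + 1))ᵀ * (N k)ᵀ) →
      ∀ k, Dg Z k = P k * Dg Z (k + 1) * (R k)ᵀ := by
    intro Z hZ k
    by_cases h : Even k
    · have h' : ¬ Even (k + 1) := by
        rw [Nat.even_add_one]; exact not_not.2 h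
      simp only [Dg, hPdef, hRdef, if_pos h, if_neg h']
      exact hZ k
    · have h' : Even (k + 1) := by
        rw [Nat.even_add_one]; exact h
      simp only [Dg, hPdef, hRdef, if_neg h, if_pos h']
      rw [hZ k, Matrix.transpose_mul, Matrix.transpose_mul, Matrix.transpose_transpose,
        Matrix.transpose_transpose, Matrix.mul_assoc]
  have hDn : ∀ Z : ℕ → Matrix (Fin 2) (Fin 2) ℝ, (∀ k i j, 0 ≤ Z k i j) →
      ∀ k i j, 0 ≤ Dg Z k i j := by
    intro Z hZ k i j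
    by_cases h : Even k
    · simp only [Dg, if_pos h]; exact hZ _ _ _
    · simp only [Dg, if_neg h, Matrix.transpose_apply]; exact hZ _ _ _
  have h1 : ∀ j l, X 0 0 j * Y 0 1 l = X 0 1 j * Y 0 0 l := by
    intro j l
    have := side (Dg X) (Dg Y) P R b ε β hε hb (hDn X hX) (hDn Y hY) gP gR.nonneg
      (hDg X hXs) (hDg Y hYs) j l
    simpa only [Dg, Even.zero, if_true] using this
  have hT : ∀ Z : ℕ → Matrix (Fin 2) (Fin 2) ℝ, (∀ k, Z k = M k * (Z (k + 1))ᵀ * (N k)ᵀ) →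
      ∀ k, (Dg Z k)ᵀ = R k * (Dg Z (k + 1))ᵀ * (P k)ᵀ := by
    intro Z hZ k
    rw [hDg Z hZ k, Matrix.transpose_mul, Matrix.transpose_mul, Matrix.transpose_transpose,
      Matrix.mul_assoc]
  have h2 : ∀ j l, X 0 j 0 * Y 0 l 1 = X 0 j 1 * Y 0 l 0 := by
    intro j l
    have := side (fun k => (Dg X k)ᵀ) (fun k => (Dg Y k)ᵀ) R P b ε β hε hb
      (fun k i j => hDn X hX k j i) (fun k i j => hDn Y hY k j i) gR gP.nonneg
      (hT X hXs) (hT Y hYs) j l
    simpa only [Dg, Even.zero, if_true, Matrix.transpose_apply] using this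
  have r1 : ∀ i j k l, X 0 i j * Y 0 k l = X 0 k j * Y 0 i l := by
    intro i j k l
    fin_cases i <;> fin_cases k
    · rfl
    · exact h1 j l
    · exact (h1 j l).symm
    · rfl
  have r2 : ∀ i j k l, X 0 i j * Y 0 k l = X 0 i l * Y 0 k j := by
    intro i j k l
    fin_cases j <;> fin_cases l
    · rfl
    · exact h2 i k
    · exact (h2 i k).symm
    · rfl
  rw [r1, r2]

end Pool.Agent.H357R3.LR
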