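import Pool.Agent.H357R3.LR.SysA
import Pool.Agent.H357R3.LR.TwoD

set_option autoImplicit false

namespace Pool.Agent.H357R3.LR

open Matrix Filter

/-- consecutive letters differ -/
def RA (s : ℕ → Fin 4) : Prop := ∀ j, s j ≠ s (j + 1)

section

variable {σ : Fin 4 → Matrix (Fin 4) (Fin 4) ℝ} (hσ : ∀ t v, Matrix.mulVec (σ t) v = rA t v)

include hσ

theorem beta_KA (m : ℕ) : ∀ (s : ℕ → Fin 4) (t : Fin 4), RA s → t ≠ s 0 → KA t (beta σ s m) := by
  induction m with
  | zero =>
    intro s t hs ht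
    rw [beta_zero]
    exact KA_single _ _ ht
  | succ m ih =>
    intro s t hs ht
    rw [beta_succ, hσ]
    exact KA_step t (s 0) ht _ (ih (fun l => s (l + 1)) (s 0) (fun j => hs (j + 1)) (hs 0))

theorem tp_nonneg (M X N : Matrix (Fin 2) (Fin 2) ℝ) (hM : ∀ i j, 0 ≤ M i j)
    (hX : ∀ i j, 0 ≤ X i j) (hN : ∀ i j, 0 ≤ N i j) (i j : Fin 2) : 0 ≤ (M * Xᵀ * Nᵀ) i j := by
  rw [tp]
  have := hM i 0
  have := hM i 1
  have := hX 0 0
  have := hX 0 1
  have := hX 1 0
  have := hX 1 1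
  have := hN j 0
  have := hN j 1
  positivity

theorem beta_cA (m : ℕ) : ∀ (s : ℕ → Fin 4) (t : Fin 4), RA s → t ≠ s 0 → ∀ i j,
    0 ≤ cA t (beta σ s m) i j := by
  induction m with
  | zero =>
    intro s t hs ht
    rw [beta_zero]
    exact A2 _ _ ht
  | succ m ih =>
    intro s t hs ht
    rw [beta_succ, hσ, A1 _ _ ht]
    exact tp_nonneg hσ _ _ _ (mA_nonneg _)
      (ih (fun l => s (l + 1)) (s 0) (fun j => hs (j + 1)) (hs 0)) (nA_nonneg _)

theorem admA : Adm σ RA := by
  refine ⟨?_, ?_, ?_, ?_⟩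
  · intro t v
    rw [hσ, hσ]
    fin_cases t <;> funext i <;> fin_cases i <;> simp [rA] <;> ring
  · intro t
    rw [hσ]
    fin_cases t <;> funext i <;> fin_cases i <;> simp [rA]
  · intro s hs j
    exact hs (j + 1)
  · intro s hs k i
    have h1 : s 0 + 1 ≠ s 0 := by
      generalize s 0 = a
      revert a
      decide
    obtain ⟨⟨h0, h1, h2, h3⟩, -⟩ := beta_KA hσ k s (s 0 + 1) hs h1
    fin_cases i <;> assumption

theorem sysA (s : ℕ → Fin 4) (hs : RA s) :
    ∃! x : Fin 4 → ℝ, AccPt x (𝓟 (Set.range (nb σ s))) := by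
  have h := admA hσ
  refine h.final s hs ?_
  intro x y hx hy
  have key : ∀ z, AccPt z (𝓟 (Set.range (nb σ s))) → ∀ k i j,
      0 ≤ cA (s k) (pull σ s z (k + 1)) i j := by
    intro z hz k
    have := h.pull_acc s hs hz (k + 1) {v | ∀ i j, 0 ≤ cA (s k) v i j} ?_ ?_ ?_
    · exact this
    · simp only [Set.ofPred_forall]
      exact isClosed_iInter fun i => isClosed_iInter fun j =>
        isClosed_le continuous_const (cA_cont _ _ _)
    · intro v hv c hc i j
      rw [cA_smul]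
      exact mul_nonneg hc.le (hv i j)
    · have : {m | beta σ (sh s (k + 1)) m ∉ {v | ∀ i j, 0 ≤ cA (s k) v i j}} = ∅ := by
        ext m
        simp only [Set.mem_ofPred_eq, Set.mem_empty_iff_false, iff_false, not_not]
        apply beta_cA hσ
        · intro j
          exact hs (k + 1 + j)
        · exact hs k
      rw [this]
      exact Set.finite_empty
  have step : ∀ z k, cA (s k) (pull σ s z (k + 1)) =
      mA (kA (s k) (s (k + 1))) * (cA (s (k + 1)) (pull σ s z (k + 1 + 1)))ᵀ *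
        (nA (kA (s k) (s (k + 1))))ᵀ := by
    intro z k
    rw [← A1 _ _ (hs k), ← hσ, ← pull_back h.inv]
  have hG1 : Good (fun k => mA (kA (s k) (s (k + 1)))) (fun k => bA (s k)) (1/2) 49 :=
    ⟨fun k => mA_nonneg _, fun k => mA_col _, fun k => mA_col' _, fun k => mA_det _ _ (hs k)⟩
  have hG2 : Good (fun k => nA (kA (s k) (s (k + 1)))) (fun k => bA (s k)) (1/2) 49 :=
    ⟨fun k => nA_nonneg _, fun k => nA_col _, fun k => nA_col' _, fun k => nA_det _ _ (hs k)⟩
  have main := twoD (fun k => cA (s k) (pull σ s x (k + 1)))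
    (fun k => cA (s k) (pull σ s y (k + 1))) _ _ (fun k => bA (s k)) (1/2) 49 (by norm_num)
    (fun k => bA_pos _) (key x hx) (key y hy) hG1 hG2 (step x) (step y)
  have hx1 : ∑ i, x i = 1 := h.acc_sum s hs hx
  have hxne : ∃ k l, cA (s 0) (pull σ s x 1) k l ≠ 0 := by
    by_contra hcon
    push Not at hcon
    have h1 := cA_inj _ _ hcon
    have h2 := pull_inj h.inv s x 1 h1
    rw [h2] at hx1
    simp at hx1
  obtain ⟨k, l, hkl⟩ := hxne
  refine ⟨cA (s 0) (pull σ s y 1) k l, cA (s 0) (pull σ s x 1) k l, Or.inr hkl, ?_⟩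
  have hz : cA (s 0) (pull σ s y 1) k l • pull σ s x 1 +
      (- cA (s 0) (pull σ s x 1) k l) • pull σ s y 1 = 0 := by
    apply cA_inj (s 0)
    intro i j
    rw [cA_lin]
    have := main i j k l
    simp only [Nat.zero_add] at this
    linarith
  rw [← pull_smul, ← pull_smul, ← pull_add] at hz
  have hz2 := pull_inj h.inv s _ 1 hz
  rw [neg_smul] at hz2
  exact add_neg_eq_zero.1 hz2

end

end Pool.Agent.H357R3.LR
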