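import Pool.Agent.H357R3.LR.SysB

set_option autoImplicit false

namespace Pool.Agent.H357R3.LR

open Matrix Filter

theorem QB_root (T : Fin 5 × Bool) (t u : Fin 5) (h : ¬ memB T t) (hu : adjB t u) :
    QB T (rB t (Pi.single u 1 : Fin 5 → ℝ)) ≤ 0 := by
  obtain ⟨i, b⟩ := T
  cases b <;> fin_cases i <;> fin_cases t <;> first
    | exact absurd (by decide) h
    | (fin_cases u <;> first
        | exact absurd hu (by decide)
        | (simp [QB, rB]; simp only [qF, qT]; norm_num))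

/-- positivity cone -/
def KB (T : Fin 5 × Bool) (v : Fin 5 → ℝ) : Prop :=
  (∀ u, 0 ≤ v u) ∧ ∀ u, memB T u → v u ≤ 2 * v (u + 1) + 2 * v (u + 4)

theorem KB_single (T : Fin 5 × Bool) (t : Fin 5) (h : ¬ memB T t) :
    KB T (Pi.single t 1 : Fin 5 → ℝ) := by
  have h0 : ∀ u, 0 ≤ (Pi.single t 1 : Fin 5 → ℝ) u := by
    intro u
    rw [Pi.single_apply]
    split_ifs <;> norm_num
  refine ⟨h0, fun u hu => ?_⟩
  have hne : u ≠ t := by
    rintro rfl; exact h hu
  have : (Pi.single t 1 : Fin 5 → ℝ) u = 0 := Pi.single_eq_of_ne hne 1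
  rw [this]
  have := h0 (u + 1)
  have := h0 (u + 4)
  linarith

theorem KB_step (T : Fin 5 × Bool) (t : Fin 5) (h : ¬ memB T t) (v : Fin 5 → ℝ)
    (hv : KB (nxt T t) v) : KB T (rB t v) := by
  obtain ⟨h0, h1⟩ := hv
  have ht := h1 t (mem_self T t h)
  have n0 := h0 t
  have n1 := h0 (t + 1)
  have n4 := h0 (t + 4)
  refine ⟨fun u => ?_, fun u hu => ?_⟩
  · by_cases hut : u = t
    · subst hut
      rw [rB_same]; linarith
    · rw [rB_ne _ _ _ hut]; exact h0 u
  · obtain ⟨d, rfl⟩ : ∃ d, u = t + d := ⟨u - t, (add_sub_cancel t u).symm⟩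
    have hneg : ∀ t : Fin 5, t + 1 + 4 = t := by decide
    have hneg' : ∀ t : Fin 5, t + 4 + 1 = t := by decide
    have a1 : ∀ t : Fin 5, t + 1 ≠ t := by decide
    have a11 : ∀ t : Fin 5, t + 1 + 1 ≠ t := by decide
    have b2 : ∀ t : Fin 5, ¬ adjB t (t + 2) := by decide
    have a2 : ∀ t : Fin 5, t + 2 ≠ t := by decide
    have a21 : ∀ t : Fin 5, t + 2 + 1 ≠ t := by decide
    have a24 : ∀ t : Fin 5, t + 2 + 4 ≠ t := by decide
    have b3 : ∀ t : Fin 5, ¬ adjB t (t + 3) := by decide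
    have a3 : ∀ t : Fin 5, t + 3 ≠ t := by decide
    have a31 : ∀ t : Fin 5, t + 3 + 1 ≠ t := by decide
    have a34 : ∀ t : Fin 5, t + 3 + 4 ≠ t := by decide
    have a4 : ∀ t : Fin 5, t + 4 ≠ t := by decide
    have a44 : ∀ t : Fin 5, t + 4 + 4 ≠ t := by decide
    fin_cases d
    · exfalso; apply h; simpa using hu
    · show rB t v (t + 1) ≤ 2 * rB t v (t + 1 + 1) + 2 * rB t v (t + 1 + 4)
      rw [hneg, rB_same, rB_ne _ _ _ (a1 t), rB_ne _ _ _ (a11 t)]
      have := h0 (t + 1 + 1)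
      linarith
    · have h2 := h1 (t + 2) (mem_keep T t _ h hu (b2 t))
      show rB t v (t + 2) ≤ 2 * rB t v (t + 2 + 1) + 2 * rB t v (t + 2 + 4)
      rw [rB_ne _ _ _ (a2 t), rB_ne _ _ _ (a21 t), rB_ne _ _ _ (a24 t)]
      exact h2
    · have h2 := h1 (t + 3) (mem_keep T t _ h hu (b3 t))
      show rB t v (t + 3) ≤ 2 * rB t v (t + 3 + 1) + 2 * rB t v (t + 3 + 4)
      rw [rB_ne _ _ _ (a3 t), rB_ne _ _ _ (a31 t), rB_ne _ _ _ (a34 t)]
      exact h2
    · show rB t v (t + 4) ≤ 2 * rB t v (t + 4 + 1) + 2 * rB t v (t + 4 + 4)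
      rw [hneg', rB_same, rB_ne _ _ _ (a4 t), rB_ne _ _ _ (a44 t)]
      have := h0 (t + 4 + 4)
      linarith

/-- the state after `k` letters -/
def stf (T : Fin 5 × Bool) : (ℕ → Fin 5) → ℕ → Fin 5 × Bool
  | _, 0 => T
  | s, k + 1 => nxt (stf T s k) (s k)

theorem stf_succ' (s : ℕ → Fin 5) (k : ℕ) : ∀ T, stf T s (k + 1) =
    stf (nxt T (s 0)) (fun l => s (l + 1)) k := by
  induction k with
  | zero => intro T; rfl
  | succ k ih =>
    intro T
    show nxt (stf T s (k + 1)) (s (k + 1)) = _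
    rw [ih]
    rfl

theorem stf_add (T : Fin 5 × Bool) (s : ℕ → Fin 5) (k m : ℕ) :
    stf T s (k + m) = stf (stf T s k) (sh s k) m := by
  induction m with
  | zero => rfl
  | succ m ih =>
    show nxt (stf T s (k + m)) (s (k + m)) = _
    rw [ih]
    rfl

/-- allowed words -/
def Run (T : Fin 5 × Bool) (s : ℕ → Fin 5) : Prop := ∀ k, ¬ memB (stf T s k) (s k)

theorem Run.sh {T : Fin 5 × Bool} {s : ℕ → Fin 5} (h : Run T s) (k : ℕ) :
    Run (stf T s k) (sh s k) := by
  intro m hm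
  apply h (k + m)
  rw [stf_add]
  exact hm

theorem Run.shift {T : Fin 5 × Bool} {s : ℕ → Fin 5} (h : Run T s) :
    Run (nxt T (s 0)) (fun l => s (l + 1)) := by
  intro m hm
  apply h (m + 1)
  rw [stf_succ']
  exact hm

/-- runs from some state -/
def RB (s : ℕ → Fin 5) : Prop := ∃ T, Run T s

theorem mem_persist (u : Fin 5) (m : ℕ) : ∀ (T : Fin 5 × Bool) (s : ℕ → Fin 5), Run T s →
    memB T u → (∀ j < m, ¬ adjB (s j) u) → memB (stf T s m) u := by
  induction m with
  | zero => intro T s _ h _; exact h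
  | succ m ih =>
    intro T s hr h hj
    rw [stf_succ']
    refine ih _ _ hr.shift (mem_keep T _ u (hr 0) h (hj 0 (Nat.succ_pos _))) ?_
    intro j hjm
    exact hj (j + 1) (by omega)

theorem fresh (m : ℕ) : ∀ (T : Fin 5 × Bool) (s : ℕ → Fin 5), Run T s →
    (∀ j < m, ¬ adjB (s j) (s m)) → ∀ j < m, s j ≠ s m := by
  intro T s hr h j hj heq
  obtain ⟨l, rfl⟩ : ∃ l, m = j + (1 + l) := ⟨m - j - 1, by omega⟩
  have h1 : memB (stf T s (j + 1)) (s (j + (1 + l))) := by
    rw [← heq]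
    exact mem_self _ _ (hr j)
  have h2 := mem_persist (s (j + (1 + l))) l (stf T s (j + 1)) (sh s (j + 1)) (hr.sh (j + 1)) h1 ?_
  · apply hr (j + (1 + l))
    rw [← add_assoc, stf_add, add_assoc]
    exact h2
  · intro i hi
    exact h (j + 1 + i) (by omega)

section

variable {σ : Fin 5 → Matrix (Fin 5) (Fin 5) ℝ} (hσ : ∀ t v, Matrix.mulVec (σ t) v = rB t v)

include hσ

theorem beta_KB (m : ℕ) : ∀ (s : ℕ → Fin 5) (T : Fin 5 × Bool), Run T s → KB T (beta σ s m) := by
  induction m with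
  | zero =>
    intro s T hs
    rw [beta_zero]
    exact KB_single _ _ (hs 0)
  | succ m ih =>
    intro s T hs
    rw [beta_succ, hσ]
    exact KB_step T (s 0) (hs 0) _ (ih _ _ hs.shift)

theorem beta_fresh (m : ℕ) : ∀ (s : ℕ → Fin 5) (T : Fin 5 × Bool), Run T s →
    (∀ j < m, ¬ adjB (s j) (s m)) → beta σ s m = Pi.single (s m) 1 := by
  induction m with
  | zero => intro s T _ _; exact beta_zero σ s
  | succ m ih =>
    intro s T hs h
    rw [beta_succ, ih _ _ hs.shift (fun j hj => h (j + 1) (by omega)), hσ]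
    have h1 : s 0 ≠ s (m + 1) := fresh (m + 1) T s hs h 0 (by omega)
    have h2 : ¬ adjB (s 0) (s (m + 1)) := h 0 (by omega)
    generalize s 0 = a at h1 h2
    generalize s (m + 1) = b at h1 h2
    have h3 : a + 1 ≠ b := by
      rintro rfl
      apply h2
      right
      revert a; decide
    have h4 : a + 4 ≠ b := by
      rintro rfl
      apply h2
      left
      revert a; decide
    funext u
    by_cases hu : u = a
    · subst hu
      rw [rB_same, Pi.single_eq_of_ne h1, Pi.single_eq_of_ne h3, Pi.single_eq_of_ne h4]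
      norm_num
    · rw [rB_ne _ _ _ hu]

theorem beta_QB (m : ℕ) : ∀ (s : ℕ → Fin 5) (T : Fin 5 × Bool), Run T s →
    (∃ j < m, adjB (s j) (s m)) → QB T (beta σ s m) ≤ 0 := by
  induction m with
  | zero => rintro s T _ ⟨j, hj, _⟩; omega
  | succ m ih =>
    intro s T hs h
    rw [beta_succ, hσ]
    by_cases h1 : ∃ j < m, adjB (s (j + 1)) (s (m + 1))
    · have h2 := ih _ _ hs.shift h1
      have h3 := trB T (s 0) (hs 0) (beta σ (fun l => s (l + 1)) m)
      have h4 := sq_nonneg' (beta σ (fun l => s (l + 1)) m)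
      have h5 := (lamB_pos T (s 0)).1
      have h6 := mul_nonpos_of_nonneg_of_nonpos h5.le h2
      linarith
    · have h1' : ∀ j < m, ¬ adjB (s (j + 1)) (s (m + 1)) := fun j hj hadj => h1 ⟨j, hj, hadj⟩
      rw [beta_fresh hσ m _ _ hs.shift h1']
      apply QB_root _ _ _ (hs 0)
      obtain ⟨j, hj, hadj⟩ := h
      rcases Nat.eq_zero_or_pos j with rfl | hjp
      · exact hadj
      · obtain ⟨i, rfl⟩ : ∃ i, j = i + 1 := ⟨j - 1, by omega⟩
        exact absurd hadj (h1' i (by omega))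

theorem bad_finite (s : ℕ → Fin 5) (T : Fin 5 × Bool) (hs : Run T s) :
    {m | ¬ QB T (beta σ s m) ≤ 0}.Finite := by
  have hsub : {m | ¬ QB T (beta σ s m) ≤ 0} ⊆ {m | ∀ j < m, s j ≠ s m} := by
    intro m hm
    apply fresh m T s hs
    intro j hj hadj
    exact hm (beta_QB hσ m s T hs ⟨j, hj, hadj⟩)
  refine Set.Finite.subset ?_ hsub
  refine Set.Finite.of_injOn (f := s) (t := Set.univ) (fun _ _ => Set.mem_univ _) ?_
    Set.finite_univ
  intro a ha b hb hab
  rcases lt_trichotomy a b with h | h | h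
  · exact absurd hab (hb a h)
  · exact h
  · exact absurd hab.symm (ha b h)

theorem admB : Adm σ RB := by
  refine ⟨?_, ?_, ?_, ?_⟩
  · intro t v
    rw [hσ, hσ]
    have e1 : t + 1 ≠ t := by revert t; decide
    have e4 : t + 4 ≠ t := by revert t; decide
    funext u
    by_cases hu : u = t
    · subst hu
      rw [rB_same, rB_same, rB_ne _ _ _ e1, rB_ne _ _ _ e4]
      ring
    · rw [rB_ne _ _ _ hu, rB_ne _ _ _ hu]
  · intro t
    rw [hσ]
    have e1 : t + 1 ≠ t := by revert t; decide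
    have e4 : t + 4 ≠ t := by revert t; decide
    funext u
    by_cases hu : u = t
    · subst hu
      rw [rB_same, Pi.single_eq_of_ne e1, Pi.single_eq_of_ne e4]
      simp
    · rw [rB_ne _ _ _ hu, Pi.neg_apply, Pi.single_eq_of_ne hu]
      simp
  · rintro s ⟨T, hs⟩
    exact ⟨_, hs.shift⟩
  · rintro s ⟨T, hs⟩ k i
    exact (beta_KB hσ k s T hs).1 i

theorem sysB (s : ℕ → Fin 5) (T : Fin 5 × Bool) (hs : Run T s) :
    ∃! x : Fin 5 → ℝ, AccPt x (𝓟 (Set.range (nb σ s))) := by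
  have h := admB hσ
  refine h.final s ⟨T, hs⟩ ?_
  intro x y hx hy
  have key : ∀ z, AccPt z (𝓟 (Set.range (nb σ s))) → ∀ k,
      QB (stf T s k) (pull σ s z k) ≤ 0 := by
    intro z hz k
    have := h.pull_acc s ⟨T, hs⟩ hz k {v | QB (stf T s k) v ≤ 0} ?_ ?_ ?_
    · exact this
    · exact isClosed_le (QB_cont _) continuous_const
    · intro v hv c hc
      show QB _ _ ≤ 0
      rw [QB_smul]
      exact mul_nonpos_of_nonneg_of_nonpos (by positivity) hv
    · exact bad_finite hσ (sh s k) (stf T s k) (hs.sh k)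
  have step : ∀ z k, QB (stf T s k) (pull σ s z k) ≤
      lamB (stf T s k) (s k) * QB (stf T s (k + 1)) (pull σ s z (k + 1)) -
        1/2 * sq (pull σ s z (k + 1)) := by
    intro z k
    have h1 := trB (stf T s k) (s k) (hs k) (pull σ s z (k + 1))
    rw [← hσ, ← pull_back h.inv] at h1
    exact h1
  have main : ∀ a b : ℝ, QB T (a • x + b • y) ≤ 0 := by
    intro a b
    exact uniq_seq (fun k => QB (stf T s k)) (fun k => lamB (stf T s k) (s k)) 4 30 (1/2)
      (by norm_num) (by norm_num) (fun k => lamB_pos _ _) (pull σ s x) (pull σ s y)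
      (pull σ s (a • x + b • y)) a b (fun k => by rw [pull_add, pull_smul, pull_smul])
      (step x) (step y) (step _) (key x hx) (key y hy) (fun k v => QB_up _ v)
  have hx1 : ∑ i, x i = 1 := h.acc_sum s ⟨T, hs⟩ hx
  have hlx : lB T x ≠ 0 := by
    intro h0
    have h1 := QB_low T x
    have h2 : QB T x ≤ 0 := key x hx 0
    rw [h0] at h1
    have h3 := sq_zero x (by nlinarith)
    rw [h3] at hx1
    simp at hx1
  refine ⟨lB T y, lB T x, Or.inr hlx, ?_⟩
  have h1 := QB_low T (lB T y • x + (- lB T x) • y)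
  have h2 := main (lB T y) (- lB T x)
  rw [lB_comb] at h1
  have h3 : lB T y * lB T x + -lB T x * lB T y = 0 := by ring
  rw [h3] at h1
  have h4 := sq_zero _ (show sq (lB T y • x + (- lB T x) • y) ≤ 0 by nlinarith)
  rw [neg_smul] at h4
  exact add_neg_eq_zero.1 h4

end

end Pool.Agent.H357R3.LR
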