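import Mathlib

set_option autoImplicit false

namespace Pool.Agent.H357R3.LR

/-- quadratic form of the one-letter state -/
def qF (a b c d e : ℝ) : ℝ := 2*a^2 + 4*a*b + 4*a*e + 1*b^2 + (-12)*b*c + (-18)*b*d + (-6)*b*e + (-5)*c^2 + (-22)*c*d + (-18)*c*e + (-5)*d^2 + (-12)*d*e + 1*e^2

/-- quadratic form of the two-letter state -/
def qT (a b c d e : ℝ) : ℝ := 6*a^2 + 4*a*b + (-4)*a*c + (-8)*a*d + 4*a*e + 6*b^2 + 4*b*c + (-8)*b*d + (-4)*b*e + (-20)*c*d + (-22)*c*e + (-7)*d^2 + (-20)*d*e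

theorem qF_symm (a b c d e : ℝ) : qF a e d c b = qF a b c d e := by
  unfold qF; ring

theorem qT_symm (a b c d e : ℝ) : qT b a e d c = qT a b c d e := by
  unfold qT; ring

theorem qa (a b c d e : ℝ) :
    qF a (-b + 4*d + 4*e) c d e ≤ 3 * qT a b c d e - 1/2 * (a^2 + b^2 + c^2 + d^2 + e^2) := by
  have h : 3 * qT a b c d e - 1/2 * (a^2 + b^2 + c^2 + d^2 + e^2) - qF a (-b + 4*d + 4*e) c d e =
      (31/2)*(a + (16/31)*b + (-12/31)*c + (-40/31)*d + (-8/31)*e)^2 + (767/62)*(b + (192/767)*c + (-414/767)*d + (-14/59)*e)^2 + (2151/1534)*(c + (-1642/2151)*d + (-416/717)*e)^2 + (39889/4302)*(d + (2724/39889)*e)^2 + (339529/79778)*(e)^2 := by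
    simp only [qF, qT]; ring
  have h2 : 0 ≤ (31/2)*(a + (16/31)*b + (-12/31)*c + (-40/31)*d + (-8/31)*e)^2 + (767/62)*(b + (192/767)*c + (-414/767)*d + (-14/59)*e)^2 + (2151/1534)*(c + (-1642/2151)*d + (-416/717)*e)^2 + (39889/4302)*(d + (2724/39889)*e)^2 + (339529/79778)*(e)^2 := by positivity
  linarith

theorem qb (a b c d e : ℝ) :
    qF a b (-c + 4*e + 4*a) d e ≤ 4 * qF c d e a b - 1/2 * (a^2 + b^2 + c^2 + d^2 + e^2) := by
  have h : 4 * qF c d e a b - 1/2 * (a^2 + b^2 + c^2 + d^2 + e^2) - qF a b (-c + 4*e + 4*a) d e =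
      (115/2)*(a + (-4/115)*b + (-8/23)*c + (16/115)*d + (28/23)*e)^2 + (559/230)*(b + (300/559)*c + (-626/559)*d + (-1510/559)*e)^2 + (5415/1118)*(c + (278/1083)*d + (-1262/5415)*e)^2 + (8707/2166)*(d + (19924/8707)*e)^2 + (543011/87070)*(e)^2 := by
    simp only [qF, qT]; ring
  have h2 : 0 ≤ (115/2)*(a + (-4/115)*b + (-8/23)*c + (16/115)*d + (28/23)*e)^2 + (559/230)*(b + (300/559)*c + (-626/559)*d + (-1510/559)*e)^2 + (5415/1118)*(c + (278/1083)*d + (-1262/5415)*e)^2 + (8707/2166)*(d + (19924/8707)*e)^2 + (543011/87070)*(e)^2 := by positivity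
  linarith

theorem qc (a b c d e : ℝ) :
    qT a b (-c + 4*e + 4*a) d e ≤ 4 * qT b c d e a - 1/2 * (a^2 + b^2 + c^2 + d^2 + e^2) := by
  have h : 4 * qT b c d e a - 1/2 * (a^2 + b^2 + c^2 + d^2 + e^2) - qT a b (-c + 4*e + 4*a) d e =
      (19/2)*(a + (-4/19)*b + (-20/19)*c + (20/19)*e)^2 + (649/38)*(b + (300/649)*c + (-152/649)*d + (-756/649)*e)^2 + (12103/1298)*(c + (-4/247)*d + (-9446/12103)*e)^2 + (2747/494)*(d + (2580/2747)*e)^2 + (4095705/269206)*(e)^2 := by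
    simp only [qF, qT]; ring
  have h2 : 0 ≤ (19/2)*(a + (-4/19)*b + (-20/19)*c + (20/19)*e)^2 + (649/38)*(b + (300/649)*c + (-152/649)*d + (-756/649)*e)^2 + (12103/1298)*(c + (-4/247)*d + (-9446/12103)*e)^2 + (2747/494)*(d + (2580/2747)*e)^2 + (4095705/269206)*(e)^2 := by positivity
  linarith

theorem qd (a b c d e : ℝ) :
    qT a b c (-d + 4*a + 4*b) e ≤ 4 * qF d e a b c - 1/2 * (a^2 + b^2 + c^2 + d^2 + e^2) := by
  have h : 4 * qF d e a b c - 1/2 * (a^2 + b^2 + c^2 + d^2 + e^2) - qT a b c (-d + 4*a + 4*b) e =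
      (235/2)*(a + (196/235)*b + (12/235)*c + (-64/235)*d + (28/235)*e)^2 + (16809/470)*(b + (4228/16809)*c + (-64/431)*d + (-2668/16809)*e)^2 + (31295/33618)*(c + (2964/2845)*d + (-1930/6259)*e)^2 + (22681/5690)*(d + (7220/22681)*e)^2 + (218785/498982)*(e)^2 := by
    simp only [qF, qT]; ring
  have h2 : 0 ≤ (235/2)*(a + (196/235)*b + (12/235)*c + (-64/235)*d + (28/235)*e)^2 + (16809/470)*(b + (4228/16809)*c + (-64/431)*d + (-2668/16809)*e)^2 + (31295/33618)*(c + (2964/2845)*d + (-1930/6259)*e)^2 + (22681/5690)*(d + (7220/22681)*e)^2 + (218785/498982)*(e)^2 := by positivity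
  linarith

theorem lowF (a b c d e : ℝ) :
    1/2 * (a^2 + b^2 + c^2 + d^2 + e^2) ≤ qF a b c d e + (3*b + 4*c + 4*d + 3*e)^2 := by
  have h : qF a b c d e + (3*b + 4*c + 4*d + 3*e)^2 - 1/2 * (a^2 + b^2 + c^2 + d^2 + e^2) =
      (3/2)*(a + (4/3)*b + (4/3)*e)^2 + (41/6)*(b + (36/41)*c + (18/41)*d + (20/41)*e)^2 + (429/82)*(c + (194/429)*d + (2/143)*e)^2 + (6961/858)*(d + (3864/6961)*e)^2 + (37679/13922)*(e)^2 := by
    unfold qF; ring
  have h2 : 0 ≤ (3/2)*(a + (4/3)*b + (4/3)*e)^2 + (41/6)*(b + (36/41)*c + (18/41)*d + (20/41)*e)^2 + (429/82)*(c + (194/429)*d + (2/143)*e)^2 + (6961/858)*(d + (3864/6961)*e)^2 + (37679/13922)*(e)^2 := by positivity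
  linarith

theorem lowT (a b c d e : ℝ) :
    1/2 * (a^2 + b^2 + c^2 + d^2 + e^2) ≤ qT a b c d e + (4*c + 4*d + 4*e)^2 := by
  have h : qT a b c d e + (4*c + 4*d + 4*e)^2 - 1/2 * (a^2 + b^2 + c^2 + d^2 + e^2) =
      (11/2)*(a + (4/11)*b + (-4/11)*c + (-8/11)*d + (4/11)*e)^2 + (105/22)*(b + (4/7)*c + (-8/15)*d + (-4/7)*e)^2 + (185/14)*(c + (84/185)*d + (102/185)*e)^2 + (335/222)*(d + (2988/1675)*e)^2 + (73621/16750)*(e)^2 := by
    unfold qT; ring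
  have h2 : 0 ≤ (11/2)*(a + (4/11)*b + (-4/11)*c + (-8/11)*d + (4/11)*e)^2 + (105/22)*(b + (4/7)*c + (-8/15)*d + (-4/7)*e)^2 + (185/14)*(c + (84/185)*d + (102/185)*e)^2 + (335/222)*(d + (2988/1675)*e)^2 + (73621/16750)*(e)^2 := by positivity
  linarith

theorem upF (a b c d e : ℝ) : qF a b c d e ≤ 30 * (a^2 + b^2 + c^2 + d^2 + e^2) := by
  have h : 30 * (a^2 + b^2 + c^2 + d^2 + e^2) - qF a b c d e = 28*(a + (-1/14)*b + (-1/14)*e)^2 + (202/7)*(b + (21/101)*c + (63/202)*d + (10/101)*e)^2 + (3409/101)*(c + (922/3409)*d + (849/3409)*e)^2 + (202659/6818)*(d + (6444/67553)*e)^2 + (1770585/67553)*(e)^2 := by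
    unfold qF; ring
  have h2 : 0 ≤ 28*(a + (-1/14)*b + (-1/14)*e)^2 + (202/7)*(b + (21/101)*c + (63/202)*d + (10/101)*e)^2 + (3409/101)*(c + (922/3409)*d + (849/3409)*e)^2 + (202659/6818)*(d + (6444/67553)*e)^2 + (1770585/67553)*(e)^2 := by positivity
  linarith

theorem upT (a b c d e : ℝ) : qT a b c d e ≤ 30 * (a^2 + b^2 + c^2 + d^2 + e^2) := by
  have h : 30 * (a^2 + b^2 + c^2 + d^2 + e^2) - qT a b c d e = 24*(a + (-1/12)*b + (1/12)*c + (1/6)*d + (-1/12)*e)^2 + (143/6)*(b + (-1/13)*c + (2/11)*d + (1/13)*e)^2 + (386/13)*(c + (65/193)*d + (147/386)*e)^2 + (68313/2123)*(d + (13145/68313)*e)^2 + (3305609/136626)*(e)^2 := by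
    unfold qT; ring
  have h2 : 0 ≤ 24*(a + (-1/12)*b + (1/12)*c + (1/6)*d + (-1/12)*e)^2 + (143/6)*(b + (-1/13)*c + (2/11)*d + (1/13)*e)^2 + (386/13)*(c + (65/193)*d + (147/386)*e)^2 + (68313/2123)*(d + (13145/68313)*e)^2 + (3305609/136626)*(e)^2 := by positivity
  linarith

end Pool.Agent.H357R3.LR
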