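import Pool.Agent.H357R3.LR.MainA
import Pool.Agent.H357R3.LR.MainB

set_option autoImplicit false

namespace Pool.Agent.H357R3.LR

open Matrix Filter

/-- initial products -/
noncomputable def wp {B : Type} {M : CoxeterMatrix B} (s : ℕ → B) (k : ℕ) : M.Group :=
  M.toCoxeterSystem.wordProd (List.ofFn fun j : Fin k => s j)

theorem wp_zero {B : Type} {M : CoxeterMatrix B} (s : ℕ → B) : wp (M := M) s 0 = 1 := by
  unfold wp
  simp

theorem wp_succ {B : Type} {M : CoxeterMatrix B} (s : ℕ → B) (k : ℕ) :
    wp (M := M) s (k + 1) = wp s k * M.toCoxeterSystem.simple (s k) := by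
  unfold wp
  rw [List.ofFn_succ', List.concat_eq_append, CoxeterSystem.wordProd_append]
  simp [CoxeterSystem.wordProd]

theorem redA (M : CoxeterMatrix (Fin 4)) (s : ℕ → Fin 4)
    (h : ∀ k : ℕ, M.toCoxeterSystem.IsReduced (List.ofFn fun j : Fin k => s j)) : RA s := by
  intro j hj
  have h1 : ∀ k, M.toCoxeterSystem.length (wp s k) = k := by
    intro k
    have := h k
    unfold CoxeterSystem.IsReduced at this
    simpa [wp] using this
  have h2 := h1 (j + 2)
  rw [wp_succ, wp_succ, ← hj, mul_assoc, CoxeterSystem.simple_mul_simple_self, mul_one, h1] at h2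
  omega

theorem redB (M : CoxeterMatrix (Fin 5))
    (hM : ∀ i j : Fin 5, i ≠ j → M i j = if i - j = 1 ∨ j - i = 1 then 0 else 2) (s : ℕ → Fin 5)
    (h : ∀ k : ℕ, M.toCoxeterSystem.IsReduced (List.ofFn fun j : Fin k => s j)) :
    Run (s 0 + 1, false) s := by
  have h1 : ∀ k, M.toCoxeterSystem.length (wp s k) = k := by
    intro k
    have := h k
    unfold CoxeterSystem.IsReduced at this
    simpa [wp] using this
  have hcomm : ∀ t u : Fin 5, t ≠ u → ¬ adjB t u →
      M.toCoxeterSystem.simple t * M.toCoxeterSystem.simple u =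
      M.toCoxeterSystem.simple u * M.toCoxeterSystem.simple t := by
    intro t u htu hadj
    have h2 : M t u = 2 := by
      rw [hM t u htu]
      exact if_neg hadj
    have h3 := M.toCoxeterSystem.simple_mul_simple_pow t u
    rw [h2, pow_two] at h3
    have h4 : (M.toCoxeterSystem.simple t * M.toCoxeterSystem.simple u)⁻¹ =
        M.toCoxeterSystem.simple u * M.toCoxeterSystem.simple t := by
      rw [_root_.mul_inv_rev, CoxeterSystem.inv_simple, CoxeterSystem.inv_simple]
    rw [← h4]
    exact eq_inv_of_mul_eq_one_left h3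
  have not_mem : ∀ k t, M.toCoxeterSystem.length (wp s k * M.toCoxeterSystem.simple t) + 1 ≤ k →
      s k ≠ t := by
    intro k t hk heq
    have h2 := h1 (k + 1)
    rw [wp_succ, heq] at h2
    omega
  have claim : ∀ k, ∀ t, memB (stf (s 0 + 1, false) s (k + 1)) t →
      M.toCoxeterSystem.length (wp s (k + 1) * M.toCoxeterSystem.simple t) + 1 ≤ k + 1 := by
    intro k
    induction k with
    | zero =>
      intro t ht
      have h2 : ∀ a b : Fin 5, memB (nxt (a + 1, false) a) b → b = a := by decide
      have h3 : t = s 0 := h2 _ _ ht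
      subst h3
      rw [wp_succ, wp_zero, one_mul, CoxeterSystem.simple_mul_simple_self]
      simp
    | succ k ih =>
      intro t ht
      have hk : ¬ memB (stf (s 0 + 1, false) s (k + 1)) (s (k + 1)) := by
        intro hmem
        exact not_mem (k + 1) _ (ih _ hmem) rfl
      have h2 : memB (nxt (stf (s 0 + 1, false) s (k + 1)) (s (k + 1))) t := ht
      rcases mem_from _ _ _ hk h2 with h3 | ⟨h3, h4, h5⟩
      · subst h3
        rw [wp_succ, mul_assoc, CoxeterSystem.simple_mul_simple_self, mul_one, h1]
      · rw [wp_succ, mul_assoc, hcomm _ _ h4 h5, ← mul_assoc]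
        have h6 := ih t h3
        have h7 := M.toCoxeterSystem.length_mul_le
          (wp s (k + 1) * M.toCoxeterSystem.simple t) (M.toCoxeterSystem.simple (s (k + 1)))
        rw [CoxeterSystem.length_simple] at h7
        omega
  intro k hk
  rcases Nat.eq_zero_or_pos k with rfl | hkp
  · have : ∀ a : Fin 5, ¬ memB (a + 1, false) a := by decide
    exact this _ hk
  · obtain ⟨j, rfl⟩ : ∃ j, k = j + 1 := ⟨k - 1, by omega⟩
    exact not_mem (j + 1) _ (claim j _ hk) rfl

end Pool.Agent.H357R3.LR
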