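import Pool.Agent.H357R3.LR.Lim

set_option autoImplicit false

namespace Pool.Agent.H357R3.LR

open Filter Topology Matrix

/-- a nonincreasing nonnegative sequence has summable drops -/
theorem drop_tendsto (A D : ℕ → ℝ) (hA : ∀ k, 0 ≤ A k) (hD : ∀ k, 0 ≤ D k)
    (h : ∀ k, A (k + 1) + D k ≤ A k) : Tendsto D atTop (𝓝 0) := by
  have h1 : ∀ K, ∑ k ∈ Finset.range K, D k ≤ A 0 - A K := by
    intro K
    induction K with
    | zero => simp
    | succ K ih =>
      rw [Finset.sum_range_succ]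
      have := h K
      linarith
  have h2 : Summable D := by
    apply summable_of_sum_range_le hD (c := A 0)
    intro K
    have := h1 K
    have := hA K
    linarith
  exact h2.tendsto_atTop_zero

/-- squared Euclidean norm -/
def sq {n : ℕ} (v : Fin n → ℝ) : ℝ := ∑ i, v i ^ 2

theorem sq_nonneg' {n : ℕ} (v : Fin n → ℝ) : 0 ≤ sq v := Finset.sum_nonneg fun i _ => sq_nonneg _

theorem sq_zero {n : ℕ} (v : Fin n → ℝ) (h : sq v ≤ 0) : v = 0 := by
  have h0 : sq v = 0 := le_antisymm h (sq_nonneg' v)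
  funext i
  have := (Finset.sum_eq_zero_iff_of_nonneg (fun i _ => sq_nonneg (v i))).1 h0 i (Finset.mem_univ _)
  exact pow_eq_zero_iff (two_ne_zero) |>.1 this

theorem sq_comb {n : ℕ} (a b : ℝ) (v w : Fin n → ℝ) :
    sq (a • v + b • w) ≤ 2 * a ^ 2 * sq v + 2 * b ^ 2 * sq w := by
  unfold sq
  rw [Finset.mul_sum, Finset.mul_sum, ← Finset.sum_add_distrib]
  refine Finset.sum_le_sum fun i _ => ?_
  simp only [Pi.add_apply, Pi.smul_apply, smul_eq_mul]
  nlinarith [sq_nonneg (a * v i - b * w i)]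

theorem uniq_seq {n : ℕ} (q : ℕ → (Fin n → ℝ) → ℝ) (lam : ℕ → ℝ) (Λ C ε : ℝ) (hε : 0 < ε)
    (hC0 : 0 ≤ C)
    (hlam : ∀ k, 0 < lam k ∧ lam k ≤ Λ) (x y z : ℕ → Fin n → ℝ) (a b : ℝ)
    (hz : ∀ k, z k = a • x k + b • y k)
    (hx : ∀ k, q k (x k) ≤ lam k * q (k + 1) (x (k + 1)) - ε * sq (x (k + 1)))
    (hy : ∀ k, q k (y k) ≤ lam k * q (k + 1) (y (k + 1)) - ε * sq (y (k + 1)))
    (hzq : ∀ k, q k (z k) ≤ lam k * q (k + 1) (z (k + 1)) - ε * sq (z (k + 1)))
    (hx0 : ∀ k, q k (x k) ≤ 0) (hy0 : ∀ k, q k (y k) ≤ 0)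
    (hC : ∀ k v, q k v ≤ C * sq v) : q 0 (z 0) ≤ 0 := by
  by_contra hcon
  push Not at hcon
  set P : ℕ → ℝ := fun k => ∏ j ∈ Finset.range k, lam j with hP
  have hPpos : ∀ k, 0 < P k := fun k => Finset.prod_pos fun j _ => (hlam j).1
  have hPs : ∀ k, P (k + 1) = P k * lam k := fun k => Finset.prod_range_succ _ _
  have gen : ∀ w : ℕ → Fin n → ℝ,
      (∀ k, q k (w k) ≤ lam k * q (k + 1) (w (k + 1)) - ε * sq (w (k + 1))) →
      (∀ k, q k (w k) ≤ 0) → Tendsto (fun k => ε * (P k * sq (w (k + 1)))) atTop (𝓝 0) := by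
    intro w hw hw0
    apply drop_tendsto (fun k => P k * (- q k (w k)))
    · intro k
      exact mul_nonneg (hPpos k).le (by linarith [hw0 k])
    · intro k
      have := hPpos k
      have := sq_nonneg' (w (k + 1))
      positivity
    · intro k
      have h1 := hw k
      have h2 := hPpos k
      rw [hPs]
      nlinarith [mul_le_mul_of_nonneg_left h1 h2.le]
  have tx := gen x hx hx0
  have ty := gen y hy hy0
  have hzk : ∀ k, q 0 (z 0) ≤ P k * q k (z k) := by
    intro k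
    induction k with
    | zero => simp [hP]
    | succ k ih =>
      have h1 := hzq k
      have h2 := hPpos k
      have h3 := sq_nonneg' (z (k + 1))
      rw [hPs]
      have h4 : q k (z k) ≤ lam k * q (k + 1) (z (k + 1)) := by nlinarith
      nlinarith [mul_le_mul_of_nonneg_left h4 h2.le]
  have hb : ∀ k, q 0 (z 0) ≤ Λ * C * (2 * a ^ 2) / ε * (ε * (P k * sq (x (k + 1)))) +
      Λ * C * (2 * b ^ 2) / ε * (ε * (P k * sq (y (k + 1)))) := by
    intro k
    have h1 := hzk (k + 1)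
    have h2 := hC (k + 1) (z (k + 1))
    have h3 := sq_comb a b (x (k + 1)) (y (k + 1))
    rw [← hz (k + 1)] at h3
    have h4 : P (k + 1) * q (k + 1) (z (k + 1)) ≤ P k * Λ * (C * sq (z (k + 1))) := by
      have h5 : 0 < q (k + 1) (z (k + 1)) := by
        have := hPpos (k + 1)
        by_contra h
        push Not at h
        have := mul_nonpos_of_nonneg_of_nonpos this.le h
        linarith
      rw [hPs]
      have h6 := (hlam k).1
      have h7 := (hlam k).2
      have h8 := hPpos k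
      have h9 : 0 ≤ C * sq (z (k + 1)) := mul_nonneg hC0 (sq_nonneg' _)
      calc P k * lam k * q (k + 1) (z (k + 1)) ≤ P k * lam k * (C * sq (z (k + 1))) := by gcongr
        _ ≤ P k * Λ * (C * sq (z (k + 1))) := by gcongr
    have hΛ : 0 < Λ := lt_of_lt_of_le (hlam 0).1 (hlam 0).2
    have h8 := hPpos k
    have h10 : P k * Λ * (C * sq (z (k + 1))) ≤ P k * Λ * (C * (2 * a ^ 2 * sq (x (k + 1)) +
        2 * b ^ 2 * sq (y (k + 1)))) := by gcongr
    have h11 : P k * Λ * (C * (2 * a ^ 2 * sq (x (k + 1)) + 2 * b ^ 2 * sq (y (k + 1)))) =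
        Λ * C * (2 * a ^ 2) / ε * (ε * (P k * sq (x (k + 1)))) +
      Λ * C * (2 * b ^ 2) / ε * (ε * (P k * sq (y (k + 1)))) := by
      field_simp
    linarith
  have hlim : Tendsto (fun k => Λ * C * (2 * a ^ 2) / ε * (ε * (P k * sq (x (k + 1)))) +
      Λ * C * (2 * b ^ 2) / ε * (ε * (P k * sq (y (k + 1))))) atTop (𝓝 0) := by
    have := (tx.const_mul (Λ * C * (2 * a ^ 2) / ε)).add (ty.const_mul (Λ * C * (2 * b ^ 2) / ε))
    simpa using this
  have := ge_of_tendsto' hlim hb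
  linarith

/-- the two-dimensional lemma -/
theorem planar (P : ℕ → Matrix (Fin 2) (Fin 2) ℝ) (u v : ℕ → Fin 2 → ℝ) (b : ℕ → ℝ) (ε β : ℝ)
    (hε : 0 < ε) (hu : ∀ k i, 0 ≤ u k i) (hv : ∀ k i, 0 ≤ v k i)
    (hPu : ∀ k, u k = (P k).mulVec (u (k + 1))) (hPv : ∀ k, v k = (P k).mulVec (v (k + 1)))
    (hcol : ∀ k j, 1 ≤ P k 0 j + P k 1 j)
    (hcol' : ∀ k, ∃ j, 1 + ε ≤ P k 0 j + P k 1 j)
    (hb : ∀ k, 0 < b k ∧ b k ≤ β) (hdet : ∀ k, |(P k).det| * b k = b (k + 1)) :
    u 0 0 * v 0 1 = u 0 1 * v 0 0 := by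
  choose J hJ using hcol'
  have step : ∀ w : ℕ → Fin 2 → ℝ, (∀ k i, 0 ≤ w k i) → (∀ k, w k = (P k).mulVec (w (k + 1))) →
      ∀ k, (w (k + 1) 0 + w (k + 1) 1) + ε * w (k + 1) (J k) ≤ w k 0 + w k 1 := by
    intro w hw hPw k
    have h0 : w k 0 = P k 0 0 * w (k + 1) 0 + P k 0 1 * w (k + 1) 1 := by
      rw [hPw k]; simp [Matrix.mulVec, dotProduct, Fin.sum_univ_two]
    have h1 : w k 1 = P k 1 0 * w (k + 1) 0 + P k 1 1 * w (k + 1) 1 := by
      rw [hPw k]; simp [Matrix.mulVec, dotProduct, Fin.sum_univ_two]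
    have c0 := hcol k 0
    have c1 := hcol k 1
    have w0 := hw (k + 1) 0
    have w1 := hw (k + 1) 1
    have hJk := hJ k
    rcases Fin.exists_fin_two.1 ⟨J k, rfl⟩ with hj | hj
    · rw [hj] at hJk ⊢
      nlinarith [mul_le_mul_of_nonneg_right hJk w0, mul_le_mul_of_nonneg_right c1 w1]
    · rw [hj] at hJk ⊢
      nlinarith [mul_le_mul_of_nonneg_right hJk w1, mul_le_mul_of_nonneg_right c0 w0]
  have lim : ∀ w : ℕ → Fin 2 → ℝ, (∀ k i, 0 ≤ w k i) → (∀ k, w k = (P k).mulVec (w (k + 1))) →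
      Tendsto (fun k => ε * w (k + 1) (J k)) atTop (𝓝 0) := by
    intro w hw hPw
    apply drop_tendsto (fun k => w k 0 + w k 1)
    · intro k; exact add_nonneg (hw k 0) (hw k 1)
    · intro k; exact mul_nonneg hε.le (hw _ _)
    · exact step w hw hPw
  have bd : ∀ w : ℕ → Fin 2 → ℝ, (∀ k i, 0 ≤ w k i) → (∀ k, w k = (P k).mulVec (w (k + 1))) →
      ∀ k, w k 0 + w k 1 ≤ w 0 0 + w 0 1 := by
    intro w hw hPw k
    induction k with
    | zero => exact le_rfl
    | succ k ih =>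
      have h1 := step w hw hPw k
      have h2 := mul_nonneg hε.le (hw (k + 1) (J k))
      linarith
  set Δ : ℕ → ℝ := fun k => u k 0 * v k 1 - u k 1 * v k 0 with hΔ
  have hΔs : ∀ k, Δ k = (P k).det * Δ (k + 1) := by
    intro k
    have a0 : u k 0 = P k 0 0 * u (k + 1) 0 + P k 0 1 * u (k + 1) 1 := by
      rw [hPu k]; simp [Matrix.mulVec, dotProduct, Fin.sum_univ_two]
    have a1 : u k 1 = P k 1 0 * u (k + 1) 0 + P k 1 1 * u (k + 1) 1 := by
      rw [hPu k]; simp [Matrix.mulVec, dotProduct, Fin.sum_univ_two]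
    have b0 : v k 0 = P k 0 0 * v (k + 1) 0 + P k 0 1 * v (k + 1) 1 := by
      rw [hPv k]; simp [Matrix.mulVec, dotProduct, Fin.sum_univ_two]
    have b1 : v k 1 = P k 1 0 * v (k + 1) 0 + P k 1 1 * v (k + 1) 1 := by
      rw [hPv k]; simp [Matrix.mulVec, dotProduct, Fin.sum_univ_two]
    rw [hΔ]
    simp only
    rw [a0, a1, b0, b1, Matrix.det_fin_two]
    ring
  have hconst : ∀ k, b k * |Δ k| = b 0 * |Δ 0| := by
    intro k
    induction k with
    | zero => rfl
    | succ k ih =>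
      rw [← ih, hΔs k, abs_mul, ← hdet k]
      ring
  have hbound : ∀ k, b 0 * |Δ 0| ≤
      β * ((u 0 0 + u 0 1) / ε * (ε * v (k + 1) (J k)) +
        (v 0 0 + v 0 1) / ε * (ε * u (k + 1) (J k))) := by
    intro k
    rw [← hconst (k + 1)]
    have hu' := bd u hu hPu (k + 1)
    have hv' := bd v hv hPv (k + 1)
    have u0 := hu (k + 1) 0
    have u1 := hu (k + 1) 1
    have v0 := hv (k + 1) 0
    have v1 := hv (k + 1) 1
    have e1 : (u 0 0 + u 0 1) / ε * (ε * v (k + 1) (J k)) = (u 0 0 + u 0 1) * v (k + 1) (J k) := by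
      field_simp
    have e2 : (v 0 0 + v 0 1) / ε * (ε * u (k + 1) (J k)) = (v 0 0 + v 0 1) * u (k + 1) (J k) := by
      field_simp
    rw [e1, e2]
    have hΔb : |Δ (k + 1)| ≤ (u 0 0 + u 0 1) * v (k + 1) (J k) +
        (v 0 0 + v 0 1) * u (k + 1) (J k) := by
      rw [hΔ, abs_le]
      simp only
      rcases Fin.exists_fin_two.1 ⟨J k, rfl⟩ with hj | hj
      · rw [hj]
        constructor <;> nlinarith
      · rw [hj]
        constructor <;> nlinarith
    have hbk := hb (k + 1)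
    calc b (k + 1) * |Δ (k + 1)| ≤ β * |Δ (k + 1)| := by
          gcongr; exact hbk.2
      _ ≤ _ := by
          have : 0 ≤ β := hbk.1.le.trans hbk.2
          gcongr
  have hl : Tendsto (fun k => β * ((u 0 0 + u 0 1) / ε * (ε * v (k + 1) (J k)) +
        (v 0 0 + v 0 1) / ε * (ε * u (k + 1) (J k)))) atTop (𝓝 0) := by
    have := (((lim v hv hPv).const_mul ((u 0 0 + u 0 1) / ε)).add
      ((lim u hu hPu).const_mul ((v 0 0 + v 0 1) / ε))).const_mul β
    simpa using this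
  have h0 := ge_of_tendsto' hl hbound
  have hb0 := (hb 0).1
  have habs : |Δ 0| = 0 := by
    have := abs_nonneg (Δ 0)
    nlinarith
  have : Δ 0 = 0 := abs_eq_zero.1 habs
  have h3 : u 0 0 * v 0 1 - u 0 1 * v 0 0 = 0 := this
  linarith

end Pool.Agent.H357R3.LR
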