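import Pool.Agent.H357R3.LR.Seq

set_option autoImplicit false

namespace Pool.Agent.H357R3.LR

open Matrix

/-- the square root of twenty one -/
noncomputable def th : ℝ := Real.sqrt 21

theorem th2 : th ^ 2 = 21 := Real.sq_sqrt (by norm_num)

theorem th3 : th ^ 3 = 21 * th := by
  rw [pow_succ, th2]

theorem th_lo : (458 : ℝ) / 100 < th := by
  apply Real.lt_sqrt_of_sq_lt
  norm_num

theorem th_hi : th < 4583 / 1000 := by
  rw [th, Real.sqrt_lt' (by norm_num)]
  norm_num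

/-- coordinates of the first pair of states -/
noncomputable def cF (a b c d : ℝ) : Matrix (Fin 2) (Fin 2) ℝ :=
  !![(th - 1) * (1200/343*b + 400/49*c), -400/49*a + (800/49 + 400/343*th)*b + 400/49*c + 400/49*d;
     -400/49*a + (800/49 - 400/343*th)*b + 400/49*c + 400/49*d, (1+th)*(120/49*b + 40/7*d)]

/-- coordinates of the second pair of states -/
noncomputable def cG (a b c d : ℝ) : Matrix (Fin 2) (Fin 2) ℝ :=
  !![(1+th)*(40/7*b+40/3*d), 400/147*th*(a+b-c) + (-400/21+800/49*th)*d;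
     400/147*th*(a+b-c) + (400/21+800/49*th)*d, (th-1)*(400/49*a+400/21*d)]

/-- the coordinates in state `s` -/
noncomputable def cA (s : Fin 4) (v : Fin 4 → ℝ) : Matrix (Fin 2) (Fin 2) ℝ :=
  ![cF (v 0) (v 1) (v 2) (v 3), cF (v 1) (v 0) (v 3) (v 2),
    cG (v 0) (v 1) (v 2) (v 3), cG (v 1) (v 0) (v 3) (v 2)] s

/-- the reflections -/
noncomputable def rA (t : Fin 4) (v : Fin 4 → ℝ) : Fin 4 → ℝ :=
  ![![-v 0 + 4 * v 1 + 2 * v 2 + 2 * v 3, v 1, v 2, v 3],
    ![v 0, 4 * v 0 - v 1 + 2 * v 2 + 2 * v 3, v 2, v 3],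
    ![v 0, v 1, 2 * v 0 + 2 * v 1 - v 2 + 12 * v 3, v 3],
    ![v 0, v 1, v 2, 2 * v 0 + 2 * v 1 + 12 * v 2 - v 3]] t

/-- kinds of transitions -/
def kA (s t : Fin 4) : Fin 6 :=
  ![![0, 0, 1, 2], ![0, 0, 2, 1], ![3, 4, 0, 5], ![4, 3, 5, 0]] s t

/-- left matrices -/
noncomputable def mA (k : Fin 6) : Matrix (Fin 2) (Fin 2) ℝ :=
  ![!![th/7, 10/7; 1, th/7],
    !![10/7, 1; th/7, 0],
    !![0, th/7; 1, 1],
    !![0, th/3; 1, 10*th/21],
    !![th/3, 1; th/3, 0],
    !![th/3, th/3; 10*th/21, th/3]] k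

/-- right matrices -/
noncomputable def nA (k : Fin 6) : Matrix (Fin 2) (Fin 2) ℝ :=
  ![!![th/7, (11-th)/7; (11+th)/10, th/7],
    !![(11-th)/7, 1; th/7, 0],
    !![0, th/7; 1, (11+th)/10],
    !![0, th/3; 1, -1+11*th/21],
    !![7/10+11*th/30, 1; th/3, 0],
    !![th/3, 7/10+11*th/30; -1+11*th/21, th/3]] k

/-- weights -/
noncomputable def bA (s : Fin 4) : ℝ := ![49, 49, 7 * th, 7 * th] s

theorem tp (M X N : Matrix (Fin 2) (Fin 2) ℝ) (i j : Fin 2) : (M * Xᵀ * Nᵀ) i j =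
    (M i 0 * X 0 0 + M i 1 * X 0 1) * N j 0 + (M i 0 * X 1 0 + M i 1 * X 1 1) * N j 1 := by
  simp only [Matrix.mul_apply, Fin.sum_univ_two, Matrix.transpose_apply]

theorem A1 (s t : Fin 4) (h : s ≠ t) (v : Fin 4 → ℝ) :
    cA s (rA t v) = mA (kA s t) * (cA t v)ᵀ * (nA (kA s t))ᵀ := by
  fin_cases s <;> fin_cases t <;> first
    | exact absurd rfl h
    | (ext i j
       rw [tp]
       fin_cases i <;> fin_cases j <;>
       (simp [cA, rA, mA, nA, kA, cF, cG]; ring_nf; simp only [th2, th3]; ring))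

theorem mA_nonneg (k : Fin 6) (i j : Fin 2) : 0 ≤ mA k i j := by
  have h1 := th_lo
  fin_cases k <;> fin_cases i <;> fin_cases j <;> simp [mA] <;> linarith

theorem nA_nonneg (k : Fin 6) (i j : Fin 2) : 0 ≤ nA k i j := by
  have h1 := th_lo
  have h2 := th_hi
  fin_cases k <;> fin_cases i <;> fin_cases j <;> simp [nA] <;> linarith

theorem mA_col (k : Fin 6) (j : Fin 2) : 1 ≤ mA k 0 j + mA k 1 j := by
  have h1 := th_lo
  have h2 := th_hi
  fin_cases k <;> fin_cases j <;> simp [mA] <;> linarith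

theorem nA_col (k : Fin 6) (j : Fin 2) : 1 ≤ nA k 0 j + nA k 1 j := by
  have h1 := th_lo
  have h2 := th_hi
  fin_cases k <;> fin_cases j <;> simp [nA] <;> linarith

theorem mA_col' (k : Fin 6) : ∃ j, 1 + 1/2 ≤ mA k 0 j + mA k 1 j := by
  have h1 := th_lo
  have h2 := th_hi
  fin_cases k
  · exact ⟨0, by simp [mA]; linarith⟩
  · exact ⟨0, by simp [mA]; linarith⟩
  · exact ⟨1, by simp [mA]; linarith⟩
  · exact ⟨1, by simp [mA]; linarith⟩
  · exact ⟨0, by simp [mA]; linarith⟩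
  · exact ⟨0, by simp [mA]; linarith⟩

theorem nA_col' (k : Fin 6) : ∃ j, 1 + 1/2 ≤ nA k 0 j + nA k 1 j := by
  have h1 := th_lo
  have h2 := th_hi
  fin_cases k
  · exact ⟨0, by simp [nA]; linarith⟩
  · exact ⟨0, by simp [nA]; linarith⟩
  · exact ⟨1, by simp [nA]; linarith⟩
  · exact ⟨1, by simp [nA]; linarith⟩
  · exact ⟨0, by simp [nA]; linarith⟩
  · exact ⟨0, by simp [nA]; linarith⟩

theorem bA_pos (s : Fin 4) : 0 < bA s ∧ bA s ≤ 49 := by
  have h1 := th_lo
  have h2 := th_hi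
  fin_cases s <;> simp [bA] <;> constructor <;> linarith

theorem mA_det (s t : Fin 4) (h : s ≠ t) : |(mA (kA s t)).det| * bA s = bA t := by
  have h1 := th_lo
  have h2 := th_hi
  have h3 := th2
  fin_cases s <;> fin_cases t <;> first
    | exact absurd rfl h
    | (simp [mA, kA, bA, Matrix.det_fin_two]
       first
        | (rw [abs_of_nonneg (by nlinarith)]; nlinarith)
        | (rw [abs_of_nonpos (by nlinarith)]; nlinarith))

theorem nA_det (s t : Fin 4) (h : s ≠ t) : |(nA (kA s t)).det| * bA s = bA t := by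
  have h1 := th_lo
  have h2 := th_hi
  have h3 := th2
  fin_cases s <;> fin_cases t <;> first
    | exact absurd rfl h
    | (simp [nA, kA, bA, Matrix.det_fin_two]
       first
        | (rw [abs_of_nonneg (by nlinarith)]; nlinarith)
        | (rw [abs_of_nonpos (by nlinarith)]; nlinarith))

theorem A2 (s t : Fin 4) (h : s ≠ t) (i j : Fin 2) :
    0 ≤ cA s (Pi.single t 1 : Fin 4 → ℝ) i j := by
  have h1 := th_lo
  have h2 := th_hi
  fin_cases s <;> fin_cases t <;> first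
    | exact absurd rfl h
    | (fin_cases i <;> fin_cases j <;> simp [cA, cF, cG, Pi.single_apply] <;> nlinarith)

theorem cF_inj (a b c d : ℝ) (h : ∀ i j, cF a b c d i j = 0) : a = 0 ∧ b = 0 ∧ c = 0 ∧ d = 0 := by
  have h1 := th_lo
  have e00 := h 0 0
  have e01 := h 0 1
  have e10 := h 1 0
  have e11 := h 1 1
  simp [cF] at e00 e01 e10 e11
  have hb : b = 0 := by
    have : th * b = 0 := by linarith
    rcases mul_eq_zero.1 this with h | h
    · linarith
    · exact h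
  subst hb
  have hc : c = 0 := by
    rcases e00 with h | h
    · linarith
    · linarith
  have hd : d = 0 := by
    rcases e11 with h | h
    · linarith
    · linarith
  subst hc hd
  refine ⟨by linarith, rfl, rfl, rfl⟩

theorem cG_inj (a b c d : ℝ) (h : ∀ i j, cG a b c d i j = 0) : a = 0 ∧ b = 0 ∧ c = 0 ∧ d = 0 := by
  have h1 := th_lo
  have e00 := h 0 0
  have e01 := h 0 1
  have e10 := h 1 0
  have e11 := h 1 1
  simp [cG] at e00 e01 e10 e11
  have hd : d = 0 := by linarith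
  subst hd
  have hb : b = 0 := by
    rcases e00 with h | h
    · linarith
    · linarith
  have ha : a = 0 := by
    rcases e11 with h | h
    · linarith
    · linarith
  subst ha hb
  have hc : c = 0 := by
    have : th * c = 0 := by linarith
    rcases mul_eq_zero.1 this with h | h
    · linarith
    · exact h
  exact ⟨rfl, rfl, hc, rfl⟩

theorem cA_inj (s : Fin 4) (v : Fin 4 → ℝ) (h : ∀ i j, cA s v i j = 0) : v = 0 := by
  fin_cases s
  · obtain ⟨h0, h1, h2, h3⟩ := cF_inj _ _ _ _ h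
    funext i; fin_cases i <;> assumption
  · obtain ⟨h0, h1, h2, h3⟩ := cF_inj _ _ _ _ h
    funext i; fin_cases i <;> assumption
  · obtain ⟨h0, h1, h2, h3⟩ := cG_inj _ _ _ _ h
    funext i; fin_cases i <;> assumption
  · obtain ⟨h0, h1, h2, h3⟩ := cG_inj _ _ _ _ h
    funext i; fin_cases i <;> assumption

theorem cA_lin (s : Fin 4) (a b : ℝ) (v w : Fin 4 → ℝ) (i j : Fin 2) :
    cA s (a • v + b • w) i j = a * cA s v i j + b * cA s w i j := by
  fin_cases s <;> fin_cases i <;> fin_cases j <;> simp [cA, cF, cG] <;> ring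

theorem cA_smul (s : Fin 4) (a : ℝ) (v : Fin 4 → ℝ) (i j : Fin 2) :
    cA s (a • v) i j = a * cA s v i j := by
  have := cA_lin s a 0 v 0 i j
  simpa using this

theorem cA_cont (s : Fin 4) (i j : Fin 2) : Continuous fun v => cA s v i j := by
  fin_cases s <;> fin_cases i <;> fin_cases j <;> simp [cA, cF, cG] <;> fun_prop

/-- the linear form of the positivity cone -/
def lA (t : Fin 4) (v : Fin 4 → ℝ) : ℝ :=
  ![2 * v 1 + v 2 + v 3, 2 * v 0 + v 2 + v 3, v 0 + v 1 + 6 * v 3, v 0 + v 1 + 6 * v 2] t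

/-- the positivity cone -/
def KA (t : Fin 4) (v : Fin 4 → ℝ) : Prop := (0 ≤ v 0 ∧ 0 ≤ v 1 ∧ 0 ≤ v 2 ∧ 0 ≤ v 3) ∧ v t ≤ lA t v

theorem KA_single (s t : Fin 4) (h : s ≠ t) : KA s (Pi.single t 1 : Fin 4 → ℝ) := by
  fin_cases s <;> fin_cases t <;> first
    | exact absurd rfl h
    | simp [KA, lA, Pi.single_apply]

theorem KA_step (s t : Fin 4) (h : s ≠ t) (v : Fin 4 → ℝ) (hv : KA t v) : KA s (rA t v) := by
  obtain ⟨⟨h0, h1, h2, h3⟩, h4⟩ := hv
  fin_cases s <;> fin_cases t <;> first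
    | exact absurd rfl h
    | (simp [lA] at h4
       simp [KA, lA, rA]
       refine ⟨⟨?_, ?_, ?_, ?_⟩, ?_⟩ <;> linarith)

end Pool.Agent.H357R3.LR
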