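import Pool.Agent.H357R3.LR.Seq
import Pool.Agent.H357R3.LR.Quad

set_option autoImplicit false

namespace Pool.Agent.H357R3.LR

open Matrix Filter

/-- the reflections -/
noncomputable def rB (t : Fin 5) (v : Fin 5 → ℝ) : Fin 5 → ℝ :=
  Function.update v t (- v t + 4 * v (t + 1) + 4 * v (t + 4))

theorem rB_same (t : Fin 5) (v : Fin 5 → ℝ) : rB t v t = - v t + 4 * v (t + 1) + 4 * v (t + 4) := by
  simp [rB]

theorem rB_ne (t u : Fin 5) (v : Fin 5 → ℝ) (h : u ≠ t) : rB t v u = v u := by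
  simp [rB, h]

/-- membership in a state -/
def memB (T : Fin 5 × Bool) (t : Fin 5) : Prop := t = T.1 ∨ (T.2 = true ∧ t = T.1 + 2)

instance (T : Fin 5 × Bool) (t : Fin 5) : Decidable (memB T t) := by
  unfold memB; infer_instance

/-- next state -/
def nxt (T : Fin 5 × Bool) (t : Fin 5) : Fin 5 × Bool :=
  if T.2 = true then
    (if t = T.1 + 4 then (T.1 + 2, true) else if t = T.1 + 3 then (T.1 + 3, true) else (t, false))
  else
    (if t = T.1 + 2 then (T.1, true) else if t = T.1 + 3 then (T.1 + 3, true) else (t, false))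

/-- adjacency -/
def adjB (t u : Fin 5) : Prop := t - u = 1 ∨ u - t = 1

instance (t u : Fin 5) : Decidable (adjB t u) := by
  unfold adjB; infer_instance

theorem mem_self : ∀ T : Fin 5 × Bool, ∀ t : Fin 5, ¬ memB T t → memB (nxt T t) t := by decide

theorem mem_keep : ∀ T : Fin 5 × Bool, ∀ t u : Fin 5, ¬ memB T t → memB T u → ¬ adjB t u →
    memB (nxt T t) u := by decide

theorem mem_from : ∀ T : Fin 5 × Bool, ∀ t u : Fin 5, ¬ memB T t → memB (nxt T t) u →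
    u = t ∨ (memB T u ∧ t ≠ u ∧ ¬ adjB t u) := by decide

/-- quadratic form of a state -/
def QB (T : Fin 5 × Bool) (v : Fin 5 → ℝ) : ℝ :=
  if T.2 = true then qT (v T.1) (v (T.1 + 2)) (v (T.1 + 4)) (v (T.1 + 1)) (v (T.1 + 3))
  else qF (v T.1) (v (T.1 + 2)) (v (T.1 + 4)) (v (T.1 + 1)) (v (T.1 + 3))

/-- linear form of a state -/
def lB (T : Fin 5 × Bool) (v : Fin 5 → ℝ) : ℝ :=
  if T.2 = true then 4 * v (T.1 + 4) + 4 * v (T.1 + 1) + 4 * v (T.1 + 3)
  else 3 * v (T.1 + 2) + 4 * v (T.1 + 4) + 4 * v (T.1 + 1) + 3 * v (T.1 + 3)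

/-- multiplier -/
noncomputable def lamB (T : Fin 5 × Bool) (t : Fin 5) : ℝ :=
  if T.2 = false ∧ (t = T.1 + 2 ∨ t = T.1 + 3) then 3 else 4

theorem lamB_pos (T : Fin 5 × Bool) (t : Fin 5) : 0 < lamB T t ∧ lamB T t ≤ 4 := by
  unfold lamB; split_ifs <;> norm_num

theorem sq_rot (i : Fin 5) (v : Fin 5 → ℝ) : sq v =
    v i ^ 2 + v (i + 2) ^ 2 + v (i + 4) ^ 2 + v (i + 1) ^ 2 + v (i + 3) ^ 2 := by
  fin_cases i <;> simp [sq, Fin.sum_univ_five] <;> ring

theorem QB_low (T : Fin 5 × Bool) (v : Fin 5 → ℝ) : 1/2 * sq v ≤ QB T v + lB T v ^ 2 := by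
  rw [sq_rot T.1]
  unfold QB lB
  split_ifs
  · exact lowT _ _ _ _ _
  · exact lowF _ _ _ _ _

theorem QB_up (T : Fin 5 × Bool) (v : Fin 5 → ℝ) : QB T v ≤ 30 * sq v := by
  rw [sq_rot T.1]
  unfold QB
  split_ifs
  · exact upT _ _ _ _ _
  · exact upF _ _ _ _ _

theorem QB_smul (T : Fin 5 × Bool) (c : ℝ) (v : Fin 5 → ℝ) : QB T (c • v) = c ^ 2 * QB T v := by
  unfold QB
  simp only [Pi.smul_apply, smul_eq_mul, qF, qT]
  split_ifs <;> ring

theorem QB_cont (T : Fin 5 × Bool) : Continuous (QB T) := by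
  unfold QB
  split_ifs <;> simp only [qF, qT] <;> fun_prop

theorem lB_comb (T : Fin 5 × Bool) (a b : ℝ) (v w : Fin 5 → ℝ) :
    lB T (a • v + b • w) = a * lB T v + b * lB T w := by
  unfold lB
  simp only [Pi.add_apply, Pi.smul_apply, smul_eq_mul]
  split_ifs <;> ring

theorem tr_F1 (i : Fin 5) (v : Fin 5 → ℝ) :
    QB (i, false) (rB (i + 1) v) ≤ 4 * QB (i + 1, false) v - 1/2 * sq v := by
  have h1 := qb (v i) (v (i+3)) (v (i+1)) (v (i+4)) (v (i+2))
  rw [sq_rot i]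
  fin_cases i <;> simp [QB, rB, Function.update_apply] at h1 ⊢ <;>
    simp only [qF] at h1 ⊢ <;> linarith

theorem tr_F2 (i : Fin 5) (v : Fin 5 → ℝ) :
    QB (i, false) (rB (i + 2) v) ≤ 3 * QB (i, true) v - 1/2 * sq v := by
  have h1 := qa (v i) (v (i+2)) (v (i+4)) (v (i+1)) (v (i+3))
  rw [sq_rot i]
  fin_cases i <;> simp [QB, rB, Function.update_apply] at h1 ⊢ <;>
    simp only [qF, qT] at h1 ⊢ <;> linarith

theorem tr_F3 (i : Fin 5) (v : Fin 5 → ℝ) :
    QB (i, false) (rB (i + 3) v) ≤ 3 * QB (i + 3, true) v - 1/2 * sq v := by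
  have h1 := qa (v i) (v (i+3)) (v (i+1)) (v (i+4)) (v (i+2))
  rw [sq_rot i]
  fin_cases i <;> simp [QB, rB, Function.update_apply] at h1 ⊢ <;>
    simp only [qF, qT] at h1 ⊢ <;> linarith

theorem tr_F4 (i : Fin 5) (v : Fin 5 → ℝ) :
    QB (i, false) (rB (i + 4) v) ≤ 4 * QB (i + 4, false) v - 1/2 * sq v := by
  have h1 := qb (v i) (v (i+2)) (v (i+4)) (v (i+1)) (v (i+3))
  rw [sq_rot i]
  fin_cases i <;> simp [QB, rB, Function.update_apply] at h1 ⊢ <;>
    simp only [qF, qT] at h1 ⊢ <;> linarith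

theorem tr_T1 (i : Fin 5) (v : Fin 5 → ℝ) :
    QB (i, true) (rB (i + 1) v) ≤ 4 * QB (i + 1, false) v - 1/2 * sq v := by
  have h1 := qd (v i) (v (i+2)) (v (i+4)) (v (i+1)) (v (i+3))
  rw [sq_rot i]
  fin_cases i <;> simp [QB, rB, Function.update_apply] at h1 ⊢ <;>
    simp only [qF, qT] at h1 ⊢ <;> linarith

theorem tr_T3 (i : Fin 5) (v : Fin 5 → ℝ) :
    QB (i, true) (rB (i + 3) v) ≤ 4 * QB (i + 3, true) v - 1/2 * sq v := by
  have h1 := qc (v (i+2)) (v i) (v (i+3)) (v (i+1)) (v (i+4))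
  rw [sq_rot i]
  fin_cases i <;> simp [QB, rB, Function.update_apply] at h1 ⊢ <;>
    simp only [qF, qT] at h1 ⊢ <;> linarith

theorem tr_T4 (i : Fin 5) (v : Fin 5 → ℝ) :
    QB (i, true) (rB (i + 4) v) ≤ 4 * QB (i + 2, true) v - 1/2 * sq v := by
  have h1 := qc (v i) (v (i+2)) (v (i+4)) (v (i+1)) (v (i+3))
  rw [sq_rot i]
  fin_cases i <;> simp [QB, rB, Function.update_apply] at h1 ⊢ <;>
    simp only [qF, qT] at h1 ⊢ <;> linarith

theorem trB (T : Fin 5 × Bool) (t : Fin 5) (h : ¬ memB T t) (v : Fin 5 → ℝ) :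
    QB T (rB t v) ≤ lamB T t * QB (nxt T t) v - 1/2 * sq v := by
  obtain ⟨i, b⟩ := T
  obtain ⟨d, rfl⟩ : ∃ d, t = i + d := ⟨t - i, (add_sub_cancel i t).symm⟩
  cases b
  · fin_cases d
    · exact absurd (Or.inl (add_zero i)) h
    · have := tr_F1 i v
      simpa [nxt, lamB] using this
    · have := tr_F2 i v
      simpa [nxt, lamB] using this
    · have := tr_F3 i v
      simpa [nxt, lamB] using this
    · have := tr_F4 i v
      simpa [nxt, lamB] using this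
  · fin_cases d
    · exact absurd (Or.inl (add_zero i)) h
    · have := tr_T1 i v
      simpa [nxt, lamB] using this
    · exact absurd (Or.inr ⟨rfl, rfl⟩) h
    · have := tr_T3 i v
      simpa [nxt, lamB] using this
    · have := tr_T4 i v
      simpa [nxt, lamB] using this

end Pool.Agent.H357R3.LR
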